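import Mathlib

/-!
Structure of the greedy sequence of Levine and O'Sullivan.
-/

namespace Pool.Agent.LOS

/-- `c` is the greedy sequence, extended by `c 0 = 0`, written without subtraction:
`c k = max over j of (j+1)(k - c j)`. -/
structure IsChi (c : ℕ → ℕ) : Prop where
  zero : c 0 = 0
  ge : ∀ j k : ℕ, (j + 1) * k ≤ c k + (j + 1) * c j
  ex : ∀ k : ℕ, ∃ j : ℕ, (j + 1) * k = c k + (j + 1) * c j

namespace IsChi

variable {c : ℕ → ℕ}

lemma self_le (h : IsChi c) (k : ℕ) : k ≤ c k := by
  have := h.ge 0 k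
  rw [h.zero] at this
  omega

lemma one (h : IsChi c) : c 1 = 1 := by
  obtain ⟨j, hj⟩ := h.ex 1
  have h1 := h.self_le 1
  rcases Nat.eq_zero_or_pos j with rfl | hpos
  · rw [h.zero] at hj; omega
  · exfalso
    have h2 := h.self_le j
    have h3 : (j + 1) * 1 ≤ (j + 1) * c j := Nat.mul_le_mul_left _ (by omega)
    omega

lemma lt_succ (h : IsChi c) (k : ℕ) : c k + 1 ≤ c (k + 1) := by
  obtain ⟨j, hj⟩ := h.ex k
  have h1 := h.ge j (k + 1)
  nlinarith

lemma strictMono (h : IsChi c) : StrictMono c :=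
  strictMono_nat_of_lt_succ (fun k => by have := h.lt_succ k; omega)

lemma conv (h : IsChi c) (k : ℕ) : 2 * c (k + 1) ≤ c k + c (k + 2) := by
  obtain ⟨j, hj⟩ := h.ex (k + 1)
  have h1 := h.ge j k
  have h2 := h.ge j (k + 2)
  nlinarith

/-- difference sequence -/
def dl (c : ℕ → ℕ) (k : ℕ) : ℕ := c (k + 1) - c k

lemma dl_add (h : IsChi c) (k : ℕ) : c (k + 1) = c k + dl c k := by
  have := h.lt_succ k
  unfold dl; omega

lemma dl_pos (h : IsChi c) (k : ℕ) : 1 ≤ dl c k := by
  have := h.lt_succ k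
  unfold dl; omega

lemma dl_mono_succ (h : IsChi c) (k : ℕ) : dl c k ≤ dl c (k + 1) := by
  have h1 := h.conv k
  have h2 := h.dl_add k
  have h3 := h.dl_add (k + 1)
  have e : k + 1 + 1 = k + 2 := rfl
  rw [e] at h3
  omega

lemma dl_mono (h : IsChi c) : Monotone (dl c) :=
  monotone_nat_of_le_succ h.dl_mono_succ

/-- breakpoints: `T j = (j+2) c (j+1) - (j+1) c j` -/
def T (c : ℕ → ℕ) (j : ℕ) : ℕ := c j + (j + 2) * dl c j

/-- the lines `(j+1)(k - c j)` -/
def hh (c : ℕ → ℕ) (j k : ℕ) : ℤ := ((j : ℤ) + 1) * ((k : ℤ) - c j)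

lemma hh_succ (h : IsChi c) (j k : ℕ) : hh c (j + 1) k - hh c j k = (k : ℤ) - T c j := by
  have h1 : (c (j + 1) : ℤ) = c j + dl c j := by exact_mod_cast h.dl_add j
  unfold hh T
  push_cast
  rw [h1]
  ring

lemma T_succ (h : IsChi c) (j : ℕ) :
    T c (j + 1) = T c j + ((j + 2) * (dl c (j + 1) - dl c j) + dl c (j + 1) + dl c j) := by
  have h1 := h.dl_add j
  have h2 := h.dl_mono_succ j
  unfold T
  obtain ⟨e, he⟩ := Nat.exists_eq_add_of_le h2
  have h3 : dl c (j + 1) - dl c j = e := by omega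
  rw [h3, he, h1]
  ring

lemma T_lt (h : IsChi c) (j : ℕ) : T c j + 2 ≤ T c (j + 1) := by
  have h1 := h.dl_pos j
  have h2 := h.dl_pos (j + 1)
  rw [h.T_succ]
  omega

lemma T_strictMono (h : IsChi c) : StrictMono (T c) :=
  strictMono_nat_of_lt_succ (fun k => by have := h.T_lt k; omega)

lemma hh_le (h : IsChi c) (j k : ℕ) : hh c j k ≤ c k := by
  have := h.ge j k
  have h2 : (((j + 1) * k : ℕ) : ℤ) ≤ ((c k + (j + 1) * c j : ℕ) : ℤ) := by exact_mod_cast this
  push_cast at h2
  unfold hh
  nlinarith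

lemma hmax_left (h : IsChi c) (m k : ℕ) (hk : ∀ j, j < m → T c j ≤ k) :
    ∀ i, i ≤ m → hh c i k ≤ hh c m k := by
  induction m with
  | zero => intro i hi; interval_cases i; exact le_rfl
  | succ m ih =>
    intro i hi
    rcases Nat.lt_or_ge i (m + 1) with h1 | h1
    · have h2 := ih (fun j hj => hk j (by omega)) i (by omega)
      have h3 := h.hh_succ m k
      have h4 : (T c m : ℤ) ≤ k := by exact_mod_cast hk m (by omega)
      linarith
    · have : i = m + 1 := by omega
      rw [this]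

lemma hmax_right (h : IsChi c) (m k : ℕ) (hk : ∀ j, m ≤ j → k ≤ T c j) :
    ∀ i, m ≤ i → hh c i k ≤ hh c m k := by
  intro i hi
  induction i, hi using Nat.le_induction with
  | base => exact le_rfl
  | succ i hi ih =>
    have h3 := h.hh_succ i k
    have h4 : (k : ℤ) ≤ T c i := by exact_mod_cast hk i hi
    linarith

lemma val_of_between (h : IsChi c) (m k : ℕ) (h1 : m = 0 ∨ T c (m - 1) ≤ k) (h2 : k ≤ T c m) :
    (c k : ℤ) = hh c m k := by
  have hl : ∀ j, j < m → T c j ≤ k := by
    intro j hj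
    rcases h1 with h1 | h1
    · omega
    · have : T c j ≤ T c (m - 1) := h.T_strictMono.monotone (by omega)
      omega
  have hr : ∀ j, m ≤ j → k ≤ T c j := by
    intro j hj
    have : T c m ≤ T c j := h.T_strictMono.monotone hj
    omega
  obtain ⟨i, hi⟩ := h.ex k
  have hi' : (c k : ℤ) = hh c i k := by
    have h2 : (((i + 1) * k : ℕ) : ℤ) = ((c k + (i + 1) * c i : ℕ) : ℤ) := by exact_mod_cast hi
    push_cast at h2
    unfold hh
    linarith
  have hle := h.hh_le m k
  rcases Nat.le_total i m with h3 | h3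
  · have := h.hmax_left m k hl i h3
    omega
  · have := h.hmax_right m k hr i h3
    omega

lemma exists_idx (h : IsChi c) (k : ℕ) : ∃ m, (m = 0 ∨ T c (m - 1) < k) ∧ k ≤ T c m := by
  have hex : ∃ m, k ≤ T c m := ⟨k, h.T_strictMono.le_apply⟩
  classical
  refine ⟨Nat.find hex, ?_, Nat.find_spec hex⟩
  rcases Nat.eq_zero_or_pos (Nat.find hex) with h0 | h0
  · left; exact h0
  · right
    have := Nat.find_min hex (m := Nat.find hex - 1) (by omega)
    omega

lemma dl_val (h : IsChi c) (m k : ℕ) (h1 : m = 0 ∨ T c (m - 1) ≤ k) (h2 : k + 1 ≤ T c m) :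
    dl c k = m + 1 := by
  have e1 := h.val_of_between m k h1 (by omega)
  have e2 := h.val_of_between m (k + 1) (by omega) h2
  have e3 : (c (k + 1) : ℤ) = c k + dl c k := by exact_mod_cast h.dl_add k
  unfold hh at e1 e2
  have : (dl c k : ℤ) = m + 1 := by
    push_cast at e2
    linarith
  exact_mod_cast this

/-- the index interval of `k+1` determines `dl c k` -/
lemma idx_of_dl (h : IsChi c) (k : ℕ) :
    (dl c k = 1 ∨ T c (dl c k - 2) < k + 1) ∧ k + 1 ≤ T c (dl c k - 1) := by
  obtain ⟨m, h1, h2⟩ := h.exists_idx (k + 1)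
  have h3 := h.dl_val m k (by rcases h1 with h1 | h1; · left; exact h1
                              · right; omega) h2
  rw [h3]
  constructor
  · rcases h1 with h1 | h1
    · left; omega
    · right
      have : m + 1 - 2 = m - 1 := by omega
      rw [this]; exact h1
  · exact h2

lemma dl_succ_le (h : IsChi c) (k : ℕ) : dl c (k + 1) ≤ dl c k + 1 := by
  obtain ⟨m, h1, h2⟩ := h.exists_idx (k + 1)
  have h3 := h.dl_val m k (by rcases h1 with h1 | h1; · left; exact h1
                              · right; omega) h2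
  rcases Nat.lt_or_ge (k + 1) (T c m) with h4 | h4
  · have h5 := h.dl_val m (k + 1) (by rcases h1 with h1 | h1; · left; exact h1
                                      · right; omega) (by omega)
    omega
  · have h5 := h.dl_val (m + 1) (k + 1) (by right; simpa using h4)
      (by have := h.T_lt m; omega)
    omega

end IsChi

end Pool.Agent.LOS
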