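import Mathlib

/-!
Per-index charge estimates for the Levine-O'Sullivan inequality.
-/

namespace Pool.Agent.LOS

open Finset

/-- reciprocal of the lower layer value -/
noncomputable def low (j c D L : ℕ) (k : ℕ) : ℝ :=
  (if k ≤ c + j * D + L then 1 else 9 / 8) / (((j : ℝ) + 1) * ((k : ℝ) - c))

/-- reciprocal of the previous layer value -/
noncomputable def cap (j c D : ℕ) (k : ℕ) : ℝ := (9 / 8) / ((j : ℝ) * ((k : ℝ) - c + D))

/-- the charge that `k` puts on `j` -/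
noncomputable def chg (j c D L : ℕ) (x : ℝ) (k : ℕ) : ℝ :=
  max 0 (min x (cap j c D k) - low j c D L k)

/-- hypotheses on the data at index `j` -/
structure Ctx (j c D L : ℕ) (a : ℕ → ℕ) (K : Finset ℕ) (d : ℕ) : Prop where
  hj : 1 ≤ j
  hD : 1 ≤ D
  hd : 1 ≤ d
  hcj : j ≤ c
  hK : ∀ k ∈ K, c + j * D < k
  hself : ∀ k ∈ K, k ≤ a k
  h1 : ∀ k ∈ K, (j + 1) * k ≤ a k + (j + 1) * (c + d)
  h2 : ∀ e ∈ K, ∀ k ∈ K, (e + 1) * k ≤ a k + (e + 1) * a e

/-- the indices that really charge -/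
noncomputable def P (j c D L : ℕ) (a : ℕ → ℕ) (K : Finset ℕ) : Finset ℕ :=
  K.filter (fun k => low j c D L k < 1 / (a k : ℝ))

/-- charging indices in the interval of `j` -/
noncomputable def Pt (j c D L : ℕ) (a : ℕ → ℕ) (K : Finset ℕ) : Finset ℕ :=
  (P j c D L a K).filter (fun k => k ≤ c + j * D + L)

/-- charging indices beyond the interval of `j` -/
noncomputable def Pd (j c D L : ℕ) (a : ℕ → ℕ) (K : Finset ℕ) : Finset ℕ :=
  (P j c D L a K).filter (fun k => ¬ k ≤ c + j * D + L)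

variable {j c D L : ℕ} {a : ℕ → ℕ} {K : Finset ℕ} {d : ℕ}

lemma chg_nonneg (x : ℝ) (k : ℕ) : 0 ≤ chg j c D L x k := le_max_left _ _

lemma sum_chg_eq (j c D L : ℕ) (a : ℕ → ℕ) (K : Finset ℕ) :
    ∑ k ∈ K, chg j c D L (1 / (a k : ℝ)) k =
      ∑ k ∈ Pt j c D L a K, chg j c D L (1 / (a k : ℝ)) k +
      ∑ k ∈ Pd j c D L a K, chg j c D L (1 / (a k : ℝ)) k := by
  unfold Pt Pd
  rw [Finset.sum_filter_add_sum_filter_not]
  unfold P
  rw [Finset.sum_filter]
  apply Finset.sum_congr rfl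
  intro k _
  split_ifs with h
  · rfl
  · unfold chg
    apply max_eq_left
    have : min (1 / (a k : ℝ)) (cap j c D k) ≤ 1 / (a k : ℝ) := min_le_left _ _
    push Not at h
    linarith

/-- logarithmic bound for sums of reciprocals -/
lemma logsum (s : ℝ) (p : ℕ) (hp : 0 < (p : ℝ) + s) (n : ℕ) :
    ∑ k ∈ Finset.Ioc p (p + n), 1 / ((k : ℝ) + s) ≤
      Real.log ((p : ℝ) + n + s) - Real.log ((p : ℝ) + s) := by
  induction n with
  | zero => simp
  | succ n ih =>
    rw [show p + (n + 1) = (p + n) + 1 from rfl, Finset.sum_Ioc_succ_top (by omega)]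
    have hn : (0 : ℝ) ≤ n := Nat.cast_nonneg n
    have h1 : 0 < (p : ℝ) + n + s := by linarith
    have h2 : 0 < (p : ℝ) + n + 1 + s := by linarith
    have h3 : 1 / (((p + n + 1 : ℕ) : ℝ) + s) ≤
        Real.log ((p : ℝ) + (n + 1 : ℕ) + s) - Real.log ((p : ℝ) + n + s) := by
      have e1 : (((p + n + 1 : ℕ) : ℝ) + s) = ((p : ℝ) + n + s) + 1 := by push_cast; ring
      have e2 : (p : ℝ) + (n + 1 : ℕ) + s = ((p : ℝ) + n + s) + 1 := by push_cast; ring
      rw [e1, e2]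
      generalize (p : ℝ) + n + s = x at h1
      rw [← Real.log_div (by linarith) (by linarith)]
      have h4 := Real.one_sub_inv_le_log_of_pos (x := (x + 1) / x) (div_pos (by linarith) h1)
      have h5 : 1 - ((x + 1) / x)⁻¹ = 1 / (x + 1) := by
        have : x + 1 ≠ 0 := by linarith
        field_simp
        ring
      rw [← h5]; exact h4
    linarith

lemma logsum' (S : Finset ℕ) (s : ℝ) (p r : ℕ) (hp : 0 < (p : ℝ) + s) (hpr : p ≤ r)
    (hS : ∀ k ∈ S, p < k ∧ k ≤ r) :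
    ∑ k ∈ S, 1 / ((k : ℝ) + s) ≤ Real.log (((r : ℝ) + s) / ((p : ℝ) + s)) := by
  obtain ⟨n, rfl⟩ := Nat.exists_eq_add_of_le hpr
  have h1 : S ⊆ Finset.Ioc p (p + n) := by
    intro k hk
    have := hS k hk
    exact Finset.mem_Ioc.mpr ⟨this.1, this.2⟩
  have h2 : ∑ k ∈ S, 1 / ((k : ℝ) + s) ≤ ∑ k ∈ Finset.Ioc p (p + n), 1 / ((k : ℝ) + s) := by
    apply Finset.sum_le_sum_of_subset_of_nonneg h1
    intro k hk _
    have := (Finset.mem_Ioc.mp hk).1
    have hk' : (p : ℝ) < k := by exact_mod_cast this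
    apply div_nonneg zero_le_one; linarith
  have hn : (0 : ℝ) ≤ n := Nat.cast_nonneg n
  rw [Real.log_div (by push_cast; linarith) (by linarith)]
  have h3 := logsum s p hp n
  push_cast
  linarith

namespace Ctx

lemma u_pos (h : Ctx j c D L a K d) {k : ℕ} (hk : k ∈ K) :
    (j : ℝ) * D < (k : ℝ) - c := by
  have h1 : ((c + j * D : ℕ) : ℝ) < (k : ℝ) := by exact_mod_cast h.hK k hk
  push_cast at h1
  linarith

lemma jr (h : Ctx j c D L a K d) : (1 : ℝ) ≤ j := by exact_mod_cast h.hj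

lemma Dr (h : Ctx j c D L a K d) : (1 : ℝ) ≤ D := by exact_mod_cast h.hD

lemma dr (h : Ctx j c D L a K d) : (1 : ℝ) ≤ d := by exact_mod_cast h.hd

lemma cr (h : Ctx j c D L a K d) : (j : ℝ) ≤ c := by exact_mod_cast h.hcj

lemma h1r (h : Ctx j c D L a K d) {k : ℕ} (hk : k ∈ K) :
    ((j : ℝ) + 1) * ((k : ℝ) - c - d) ≤ a k := by
  have h1 : (((j + 1) * k : ℕ) : ℝ) ≤ ((a k + (j + 1) * (c + d) : ℕ) : ℝ) := by
    exact_mod_cast h.h1 k hk
  push_cast at h1
  linarith

lemma h2r (h : Ctx j c D L a K d) {e k : ℕ} (he : e ∈ K) (hk : k ∈ K) :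
    ((e : ℝ) + 1) * ((k : ℝ) - a e) ≤ a k := by
  have h1 : (((e + 1) * k : ℕ) : ℝ) ≤ ((a k + (e + 1) * a e : ℕ) : ℝ) := by
    exact_mod_cast h.h2 e he k hk
  push_cast at h1
  linarith

lemma apos (h : Ctx j c D L a K d) {k : ℕ} (hk : k ∈ K) : (0 : ℝ) < a k := by
  have h1 := h.hself k hk
  have h2 := h.hK k hk
  have : 0 < a k := by omega
  exact_mod_cast this

lemma mem_Pt (h : Ctx j c D L a K d) {k : ℕ} (hk : k ∈ Pt j c D L a K) :
    k ∈ K ∧ (k : ℝ) - c ≤ j * D + L ∧ (a k : ℝ) < ((j : ℝ) + 1) * ((k : ℝ) - c) := by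
  unfold Pt P at hk
  rw [Finset.mem_filter, Finset.mem_filter] at hk
  obtain ⟨⟨hkK, hlow⟩, hle⟩ := hk
  refine ⟨hkK, ?_, ?_⟩
  · have h1 : (k : ℝ) ≤ ((c + j * D + L : ℕ) : ℝ) := by exact_mod_cast hle
    push_cast at h1
    linarith
  · unfold low at hlow
    rw [if_pos hle] at hlow
    have hu := h.u_pos hkK
    have hj := h.jr
    have hD := h.Dr
    have hpos : 0 < ((j : ℝ) + 1) * ((k : ℝ) - c) := by
      apply mul_pos <;> nlinarith
    have ha := h.apos hkK
    exact (one_div_lt_one_div hpos ha).mp hlow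

lemma mem_Pd (h : Ctx j c D L a K d) {k : ℕ} (hk : k ∈ Pd j c D L a K) :
    k ∈ K ∧ c + j * D + L < k ∧ (j : ℝ) * D + L < (k : ℝ) - c ∧
      9 * (a k : ℝ) < 8 * (((j : ℝ) + 1) * ((k : ℝ) - c)) := by
  unfold Pd P at hk
  rw [Finset.mem_filter, Finset.mem_filter] at hk
  obtain ⟨⟨hkK, hlow⟩, hle⟩ := hk
  have hlt : c + j * D + L < k := by omega
  refine ⟨hkK, hlt, ?_, ?_⟩
  · have h1 : ((c + j * D + L : ℕ) : ℝ) < (k : ℝ) := by exact_mod_cast hlt
    push_cast at h1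
    linarith
  · unfold low at hlow
    rw [if_neg hle] at hlow
    have hu := h.u_pos hkK
    have hj := h.jr
    have hD := h.Dr
    have hpos : 0 < ((j : ℝ) + 1) * ((k : ℝ) - c) := by
      apply mul_pos <;> nlinarith
    have ha := h.apos hkK
    rw [div_lt_div_iff₀ hpos ha] at hlow
    linarith

/-- deep charging indices are below `c + 9 d` -/
lemma deep_range (h : Ctx j c D L a K d) {k : ℕ} (hk : k ∈ Pd j c D L a K) :
    (k : ℝ) - c < 9 * d := by
  obtain ⟨hkK, _, _, h9⟩ := h.mem_Pd hk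
  have h1 := h.h1r hkK
  have hj := h.jr
  nlinarith

lemma deep_empty (h : Ctx j c D L a K d) (h9 : 9 * d ≤ j * D + L + 1) :
    Pd j c D L a K = ∅ := by
  rw [Finset.eq_empty_iff_forall_notMem]
  intro k hk
  have h1 := h.deep_range hk
  obtain ⟨_, h2, _, _⟩ := h.mem_Pd hk
  have h3 : k < c + 9 * d := by
    have : (k : ℝ) < ((c + 9 * d : ℕ) : ℝ) := by push_cast; linarith
    exact_mod_cast this
  omega

/-- charge bounded by cap minus low -/
lemma chg_le_cap (h : Ctx j c D L a K d) {k : ℕ} (hk : k ∈ K) :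
    chg j c D L (1 / (a k : ℝ)) k ≤ cap j c D k - low j c D L k := by
  unfold chg
  apply max_le
  · unfold cap low
    have hu := h.u_pos hk
    have hj := h.jr
    have hD := h.Dr
    have hc1 : 0 < ((j : ℝ) + 1) * ((k : ℝ) - c) := by
      apply mul_pos <;> nlinarith
    have hc2 : 0 < (j : ℝ) * ((k : ℝ) - c + D) := by
      apply mul_pos <;> nlinarith
    rw [sub_nonneg]
    have key : (9 / 8 : ℝ) / (((j : ℝ) + 1) * ((k : ℝ) - c)) ≤
        (9 / 8) / ((j : ℝ) * ((k : ℝ) - c + D)) := by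
      apply div_le_div_of_nonneg_left (by norm_num) hc2
      nlinarith
    split_ifs with hif
    · refine le_trans ?_ key
      apply div_le_div_of_nonneg_right (by norm_num) hc1.le
    · exact key
  · have := min_le_right (1 / (a k : ℝ)) (cap j c D k)
    linarith

/-- charge bounded via the constraint from `j`, in the interval of `j` -/
lemma chg_le_line (h : Ctx j c D L a K d) {k : ℕ} (hk : k ∈ K) (hkt : k ≤ c + j * D + L)
    (hkd : (d : ℝ) < (k : ℝ) - c) :
    chg j c D L (1 / (a k : ℝ)) k ≤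
      1 / (((j : ℝ) + 1) * ((k : ℝ) - c - d)) - 1 / (((j : ℝ) + 1) * ((k : ℝ) - c)) := by
  have hu := h.u_pos hk
  have hj := h.jr
  have hD := h.Dr
  have hd := h.dr
  have hc1 : 0 < ((j : ℝ) + 1) * ((k : ℝ) - c) := by
    apply mul_pos <;> nlinarith
  have hc2 : 0 < ((j : ℝ) + 1) * ((k : ℝ) - c - d) := by
    apply mul_pos <;> linarith
  unfold chg
  apply max_le
  · rw [sub_nonneg]
    apply one_div_le_one_div_of_le hc2
    nlinarith
  · have h1 := min_le_left (1 / (a k : ℝ)) (cap j c D k)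
    have h2 : 1 / (a k : ℝ) ≤ 1 / (((j : ℝ) + 1) * ((k : ℝ) - c - d)) :=
      one_div_le_one_div_of_le hc2 (h.h1r hk)
    unfold low
    rw [if_pos hkt]
    linarith

/-- the deep charge in terms of a shifted reciprocal -/
lemma chg_deep_le (h : Ctx j c D L a K d) {k : ℕ} (hk : k ∈ K) (hkt : ¬ k ≤ c + j * D + L) :
    chg j c D L (1 / (a k : ℝ)) k ≤
      (9 / (8 * ((j : ℝ) * (j + 1)))) * (1 / ((k : ℝ) + (((j : ℝ) + 1) * D - c))) := by
  refine le_trans (h.chg_le_cap hk) ?_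
  unfold cap low
  rw [if_neg hkt]
  have hu := h.u_pos hk
  have hj := h.jr
  have hD := h.Dr
  have e : (k : ℝ) + (((j : ℝ) + 1) * D - c) = ((k : ℝ) - c) + ((j : ℝ) + 1) * D := by ring
  rw [e]
  generalize (k : ℝ) - c = u at hu
  have hupos : 0 < u := by nlinarith
  have hD0 : (0 : ℝ) < D := by linarith
  have hj0 : (0 : ℝ) < j := by linarith
  have e2 : (9 / 8 : ℝ) / ((j : ℝ) * (u + D)) - (9 / 8) / (((j : ℝ) + 1) * u) =
      (9 / (8 * ((j : ℝ) * (j + 1)))) * ((u - j * D) / (u * (u + D))) := by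
    field_simp
    ring
  rw [e2]
  apply mul_le_mul_of_nonneg_left _ (by positivity)
  rw [div_le_div_iff₀ (by positivity) (by positivity)]
  nlinarith [mul_pos hj0 hD0, mul_pos hupos hD0, mul_pos (mul_pos hj0 hD0) hD0]

end Ctx

end Pool.Agent.LOS
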