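import Mathlib
import Pool.Agent.LOS.Sums

/-!
Bounds for the two parts of the charge.
-/

namespace Pool.Agent.LOS

open Finset

variable {j c D L : ℕ} {a : ℕ → ℕ} {K : Finset ℕ} {d : ℕ}

lemma T1sum (c : ℝ) (p : ℕ) (A d : ℝ) (hA : (p : ℝ) - c = A) (hd : 0 ≤ d) (hdA : d < A) (n : ℕ) :
    ∑ k ∈ Finset.Ioc p (p + n), (1 / ((k : ℝ) - c - d) - 1 / ((k : ℝ) - c)) ≤
      d * n / ((A - d) * (A + n)) := by
  induction n with
  | zero => simp
  | succ n ih =>
    rw [show p + (n + 1) = (p + n) + 1 from rfl, Finset.sum_Ioc_succ_top (by omega)]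
    have hn : (0 : ℝ) ≤ n := Nat.cast_nonneg n
    have e1 : ((p + n + 1 : ℕ) : ℝ) - c = A + n + 1 := by push_cast; linarith
    rw [e1]
    push_cast
    refine le_trans (add_le_add ih le_rfl) ?_
    have h1 : 0 < A - d := by linarith
    have h2 : 0 < A + n := by linarith
    have h3 : 0 < A + n + 1 := by linarith
    have h4 : 0 < A + n + 1 - d := by linarith
    have e2 : d * (n + 1) / ((A - d) * (A + (n + 1))) - d * n / ((A - d) * (A + n)) =
        d * A / ((A - d) * (A + n) * (A + n + 1)) := by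
      have : A + (n + 1) ≠ 0 := by linarith
      field_simp
      ring
    have e3 : 1 / (A + n + 1 - d) - 1 / (A + n + 1) = d / ((A + n + 1 - d) * (A + n + 1)) := by
      field_simp
      ring
    have h5 : d / ((A + n + 1 - d) * (A + n + 1)) ≤ d * A / ((A - d) * (A + n) * (A + n + 1)) := by
      rw [div_le_div_iff₀ (by positivity) (by positivity)]
      have h6 : (A - d) * (A + n) ≤ A * (A + n + 1 - d) := by nlinarith
      have h7 : 0 ≤ d * (A + n + 1) := by positivity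
      nlinarith [mul_le_mul_of_nonneg_left h6 h7]
    linarith

lemma Pt_subset (h : Ctx j c D L a K d) :
    Pt j c D L a K ⊆ Finset.Ioc (c + j * D) (c + j * D + L) := by
  intro k hk
  obtain ⟨hkK, _⟩ := h.mem_Pt hk
  have h1 := h.hK k hkK
  unfold Pt at hk
  rw [Finset.mem_filter] at hk
  exact Finset.mem_Ioc.mpr ⟨h1, hk.2⟩

lemma aux_top (j c D L ue ur ae ar q M : ℝ) (hj : 3 ≤ j) (hD : 2 ≤ D) (hc : j ≤ c)
    (hL : L ≤ j + 2 * D + 2) (hq : q = 8 * (j + 1) / 9) (hM : M = j * D + L)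
    (hue : 0 < ue) (hueM : ue ≤ M) (hea : ae < (j + 1) * ue) (hra : 9 * ar < 8 * ((j + 1) * ur))
    (h2 : (ue + c + 1) * (ur + c - ae) ≤ ar) :
    ur + (j + 1) * D ≤ q * (M + (j + 1) * D) := by
  have hq1 : q ≤ c + 1 := by rw [hq]; linarith
  have hqpos : 0 < q := by rw [hq]; positivity
  have hra' : ar < q * ur := by rw [hq]; linarith
  have k1 : (ue + c + 1 - q) * ur < (ue + c + 1) * ((j + 1) * ue - c) := by
    have h3 : (ue + c + 1) * (ur + c - ae) < q * ur := lt_of_le_of_lt h2 hra'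
    have h4 : (ue + c + 1) * ae ≤ (ue + c + 1) * ((j + 1) * ue) :=
      mul_le_mul_of_nonneg_left hea.le (by linarith)
    linarith
  have hwq : ue ≤ ue + c + 1 - q := by linarith
  have hcond : (j + 1) * M + (j + 1) * q - c ≤ q * (M + (j + 1) * D) - (j + 1) * D := by
    have hD0 : 0 ≤ (7 * j - 3) * (D - 2) := by
      apply mul_nonneg <;> linarith
    have h5 : 5 * j - 16 ≤ (7 * j - 1) * D - L - 8 * (j + 1) := by linarith
    have h6 : (j + 1) * (5 * j - 16) ≤ (j + 1) * ((7 * j - 1) * D - L - 8 * (j + 1)) := by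
      apply mul_le_mul_of_nonneg_left h5 (by linarith)
    have h7 : 0 ≤ (j + 1) * (5 * j - 16) + 9 * c := by nlinarith
    have h8 : 0 ≤ (j + 1) * ((7 * j - 1) * D - L - 8 * (j + 1)) + 9 * c := by linarith
    have h9 : q * (M + (j + 1) * D) - (j + 1) * D - ((j + 1) * M + (j + 1) * q - c) =
      ((j + 1) * ((7 * j - 1) * D - L - 8 * (j + 1)) + 9 * c) / 9 := by
      rw [hq, hM]; ring
    linarith
  by_contra hcon
  push Not at hcon
  have hX : (j + 1) * M + (j + 1) * q - c < ur := by linarith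
  have k2 : (ue + c + 1 - q) * ((j + 1) * M + (j + 1) * q - c) <
      (ue + c + 1) * ((j + 1) * ue - c) := by
    refine lt_of_le_of_lt ?_ k1
    apply mul_le_mul_of_nonneg_left hX.le (by linarith)
  have h8 : 0 ≤ (j + 1) * (M - ue) := by
    apply mul_nonneg <;> linarith
  have h9 : 0 ≤ (j + 1) * q := by positivity
  have k3 : ue * ((j + 1) * q) ≤
      (ue + c + 1 - q) * ((j + 1) * (M - ue) + (j + 1) * q) :=
    calc ue * ((j + 1) * q) ≤ (ue + c + 1 - q) * ((j + 1) * q) :=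
          mul_le_mul_of_nonneg_right hwq h9
      _ ≤ (ue + c + 1 - q) * ((j + 1) * (M - ue) + (j + 1) * q) := by
          apply mul_le_mul_of_nonneg_left (by linarith) (by linarith)
  have k4 : 0 ≤ q * c := by
    apply mul_nonneg hqpos.le; linarith
  have k5 : (ue + c + 1 - q) * ((j + 1) * M + (j + 1) * q - c) -
      (ue + c + 1) * ((j + 1) * ue - c) =
      (ue + c + 1 - q) * ((j + 1) * (M - ue) + (j + 1) * q) - ue * ((j + 1) * q) + q * c := by
    ring
  linarith

lemma aux_deep (j c D ue ur ae ar q b : ℝ) (hj : 3 ≤ j) (hD : 2 ≤ D) (hc : j ≤ c)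
    (hq : q = 8 * (j + 1) / 9) (hb : b = (j + 1) * D)
    (hue : 0 < ue) (hea : 9 * ae < 8 * ((j + 1) * ue)) (hra : 9 * ar < 8 * ((j + 1) * ur))
    (h2 : (ue + c + 1) * (ur + c - ae) ≤ ar) :
    ur + b ≤ q * (ue - 1 + b) := by
  have hq1 : q ≤ c + 1 := by rw [hq]; linarith
  have hra' : ar < q * ur := by rw [hq]; linarith
  have hea' : ae < q * ue := by rw [hq]; linarith
  have hq3 : 32 / 9 ≤ q := by rw [hq]; linarith
  have hqpos : 0 < q := by linarith
  have k1 : (ue + c + 1 - q) * ur < (ue + c + 1) * (q * ue - c) := by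
    have h3 : (ue + c + 1) * (ur + c - ae) < q * ur := lt_of_le_of_lt h2 hra'
    have h4 : (ue + c + 1) * ae ≤ (ue + c + 1) * (q * ue) :=
      mul_le_mul_of_nonneg_left hea'.le (by linarith)
    linarith
  have hcond : q * q + q ≤ (q - 1) * b + c := by
    have hb2 : (9 / 4) * q ≤ b := by rw [hb, hq]; nlinarith
    have h5 : (q - 1) * ((9 / 4) * q) ≤ (q - 1) * b :=
      mul_le_mul_of_nonneg_left hb2 (by linarith)
    nlinarith
  by_contra hcon
  push Not at hcon
  have hX : q * ue + q * q - c < ur := by linarith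
  have k2 : (ue + c + 1 - q) * (q * ue + q * q - c) < (ue + c + 1) * (q * ue - c) := by
    refine lt_of_le_of_lt ?_ k1
    apply mul_le_mul_of_nonneg_left hX.le (by linarith)
  have k3 : q * q ≤ q * (c + 1) := mul_le_mul_of_nonneg_left hq1 hqpos.le
  have k4 : 0 ≤ q * (q * (c + 1) - q * q) := mul_nonneg hqpos.le (by linarith)
  have k6 : 0 ≤ q * c := mul_nonneg hqpos.le (by linarith)
  have k5 : (ue + c + 1 - q) * (q * ue + q * q - c) - (ue + c + 1) * (q * ue - c) =
      q * (q * (c + 1) - q * q) + q * c := by ring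
  linarith

namespace Ctx

lemma top_T1 (h : Ctx j c D L a K d) (hdj : d < j * D) :
    ∑ k ∈ Pt j c D L a K, chg j c D L (1 / (a k : ℝ)) k ≤
      (d : ℝ) * L / (((j : ℝ) + 1) * (((j : ℝ) * D - d) * ((j : ℝ) * D + L))) := by
  have hj := h.jr
  have hD := h.Dr
  have hd := h.dr
  have hdj' : (d : ℝ) < (j : ℝ) * D := by exact_mod_cast hdj
  have hA : ((c + j * D : ℕ) : ℝ) - c = (j : ℝ) * D := by push_cast; ring
  have s1 : ∑ k ∈ Pt j c D L a K, chg j c D L (1 / (a k : ℝ)) k ≤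
      ∑ k ∈ Pt j c D L a K, (1 / ((j : ℝ) + 1)) * (1 / ((k : ℝ) - c - d) - 1 / ((k : ℝ) - c)) := by
    apply Finset.sum_le_sum
    intro k hk
    obtain ⟨hkK, h2, _⟩ := h.mem_Pt hk
    have hu := h.u_pos hkK
    have hk2 : k ≤ c + j * D + L := (Finset.mem_Ioc.mp (Pt_subset h hk)).2
    refine le_trans (h.chg_le_line hkK hk2 (by linarith)) (le_of_eq ?_)
    have h3 : (k : ℝ) - c - d ≠ 0 := by linarith
    have h4 : (k : ℝ) - c ≠ 0 := by linarith
    field_simp
  have s2 : ∑ k ∈ Pt j c D L a K,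
        (1 / ((j : ℝ) + 1)) * (1 / ((k : ℝ) - c - d) - 1 / ((k : ℝ) - c)) ≤
      ∑ k ∈ Finset.Ioc (c + j * D) (c + j * D + L),
        (1 / ((j : ℝ) + 1)) * (1 / ((k : ℝ) - c - d) - 1 / ((k : ℝ) - c)) := by
    apply Finset.sum_le_sum_of_subset_of_nonneg (Pt_subset h)
    intro k hk _
    have h1 := (Finset.mem_Ioc.mp hk).1
    have h2 : ((c + j * D : ℕ) : ℝ) < k := by exact_mod_cast h1
    have h3 : (j : ℝ) * D < (k : ℝ) - c := by linarith
    apply mul_nonneg (by positivity)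
    rw [sub_nonneg]
    apply one_div_le_one_div_of_le <;> linarith
  have s2' : ∑ k ∈ Finset.Ioc (c + j * D) (c + j * D + L),
        (1 / ((j : ℝ) + 1)) * (1 / ((k : ℝ) - c - d) - 1 / ((k : ℝ) - c)) =
      (1 / ((j : ℝ) + 1)) * ∑ k ∈ Finset.Ioc (c + j * D) (c + j * D + L),
        (1 / ((k : ℝ) - c - d) - 1 / ((k : ℝ) - c)) := by rw [Finset.mul_sum]
  rw [s2'] at s2
  have s3 := T1sum (c : ℝ) (c + j * D) ((j : ℝ) * D) (d : ℝ) hA (by linarith) hdj' L
  have s4 : (1 / ((j : ℝ) + 1)) * ((d : ℝ) * L / (((j : ℝ) * D - d) * ((j : ℝ) * D + L))) =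
      (d : ℝ) * L / (((j : ℝ) + 1) * (((j : ℝ) * D - d) * ((j : ℝ) * D + L))) := by
    rw [div_mul_div_comm, one_mul]
  rw [← s4]
  refine le_trans s1 (le_trans s2 ?_)
  exact mul_le_mul_of_nonneg_left s3 (by positivity)

lemma top_T2 (h : Ctx j c D L a K d) :
    ∑ k ∈ Pt j c D L a K, chg j c D L (1 / (a k : ℝ)) k ≤
      ∑ k ∈ Finset.Ioc (c + j * D) (c + j * D + L),
        ((9 / 8) / ((j : ℝ) * ((k : ℝ) - c + D)) - 1 / (((j : ℝ) + 1) * ((k : ℝ) - c))) := by
  have hj := h.jr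
  have hD := h.Dr
  have s1 : ∑ k ∈ Pt j c D L a K, chg j c D L (1 / (a k : ℝ)) k ≤
      ∑ k ∈ Pt j c D L a K,
        ((9 / 8) / ((j : ℝ) * ((k : ℝ) - c + D)) - 1 / (((j : ℝ) + 1) * ((k : ℝ) - c))) := by
    apply Finset.sum_le_sum
    intro k hk
    obtain ⟨hkK, _, _⟩ := h.mem_Pt hk
    have hk2 : k ≤ c + j * D + L := (Finset.mem_Ioc.mp (Pt_subset h hk)).2
    refine le_trans (h.chg_le_cap hkK) (le_of_eq ?_)
    unfold cap low
    rw [if_pos hk2]
  refine le_trans s1 ?_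
  apply Finset.sum_le_sum_of_subset_of_nonneg (Pt_subset h)
  intro k hk _
  have h1 := (Finset.mem_Ioc.mp hk).1
  have h2 : ((c + j * D : ℕ) : ℝ) < k := by exact_mod_cast h1
  push_cast at h2
  have h3 : (j : ℝ) * D < (k : ℝ) - c := by linarith
  generalize (k : ℝ) - c = u at h3
  have hu : 0 < u := by nlinarith
  rw [sub_nonneg, div_le_div_iff₀ (by positivity) (by positivity)]
  nlinarith

lemma deep_sum_aux (h : Ctx j c D L a K d) :
    ∑ k ∈ Pd j c D L a K, chg j c D L (1 / (a k : ℝ)) k ≤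
      (9 / (8 * ((j : ℝ) * (j + 1)))) *
        ∑ k ∈ Pd j c D L a K, (1 / ((k : ℝ) + (((j : ℝ) + 1) * D - c))) := by
  rw [Finset.mul_sum]
  apply Finset.sum_le_sum
  intro k hk
  obtain ⟨hkK, hlt, _, _⟩ := h.mem_Pd hk
  exact h.chg_deep_le hkK (by omega)

/-- range limited bound -/
lemma deep_G3 (h : Ctx j c D L a K d) (h9 : j * D + L ≤ 9 * d) :
    ∑ k ∈ Pd j c D L a K, chg j c D L (1 / (a k : ℝ)) k ≤
      (9 / (8 * ((j : ℝ) * (j + 1)))) *
        Real.log ((9 * (d : ℝ) + ((j : ℝ) + 1) * D) / ((j : ℝ) * D + L + ((j : ℝ) + 1) * D)) := by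
  have hj := h.jr
  have hD := h.Dr
  refine le_trans h.deep_sum_aux ?_
  apply mul_le_mul_of_nonneg_left _ (by positivity)
  have hLn : (0 : ℝ) ≤ L := Nat.cast_nonneg L
  have key := logsum' (Pd j c D L a K) (((j : ℝ) + 1) * D - c) (c + j * D + L) (c + 9 * d)
    (by push_cast; nlinarith) (by omega) (by
      intro k hk
      obtain ⟨hkK, hlt, _, _⟩ := h.mem_Pd hk
      refine ⟨hlt, ?_⟩
      have h1 := h.deep_range hk
      have : (k : ℝ) < ((c + 9 * d : ℕ) : ℝ) := by push_cast; linarith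
      have : k < c + 9 * d := by exact_mod_cast this
      omega)
  refine le_trans key (le_of_eq ?_)
  congr 1
  push_cast
  congr 1 <;> ring

/-- self limited bound -/
lemma deep_G4 (h : Ctx j c D L a K d) (hj3 : 3 ≤ j) (hD2 : 2 ≤ D) (hL : L ≤ j + 2 * D + 2) :
    ∑ k ∈ Pd j c D L a K, chg j c D L (1 / (a k : ℝ)) k ≤
      (9 / (8 * ((j : ℝ) * (j + 1)))) * Real.log (8 * ((j : ℝ) + 1) / 9) := by
  have hj : (3 : ℝ) ≤ j := by exact_mod_cast hj3
  have hD : (2 : ℝ) ≤ D := by exact_mod_cast hD2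
  have hLr : (L : ℝ) ≤ j + 2 * D + 2 := by exact_mod_cast hL
  have hL0 : (0 : ℝ) ≤ L := Nat.cast_nonneg L
  have hc := h.cr
  refine le_trans h.deep_sum_aux ?_
  apply mul_le_mul_of_nonneg_left _ (by positivity)
  rcases Finset.eq_empty_or_nonempty (Pd j c D L a K) with hemp | hne
  · rw [hemp, Finset.sum_empty]
    apply Real.log_nonneg
    rw [le_div_iff₀ (by norm_num)]
    linarith
  have hPne : (P j c D L a K).Nonempty := by
    obtain ⟨x, hx⟩ := hne
    exact ⟨x, (Finset.mem_filter.mp hx).1⟩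
  set e := (P j c D L a K).min' hPne with he
  set r := (Pd j c D L a K).max' hne with hr
  have heP : e ∈ P j c D L a K := Finset.min'_mem _ _
  have hrP : r ∈ Pd j c D L a K := Finset.max'_mem _ _
  obtain ⟨hrK, hrlt, hru, hra⟩ := h.mem_Pd hrP
  -- a natural number p with everything in (p, r] and the ratio bound
  obtain ⟨p, hp1, hp2, hp3⟩ : ∃ p : ℕ, (∀ k ∈ Pd j c D L a K, p < k) ∧
      0 < (p : ℝ) - c + ((j : ℝ) + 1) * D ∧
      ((r : ℝ) - c) + ((j : ℝ) + 1) * D ≤
        (8 * ((j : ℝ) + 1) / 9) * (((p : ℝ) - c) + ((j : ℝ) + 1) * D) := by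
    by_cases het : e ≤ c + j * D + L
    · -- e in the interval of j
      have hePt : e ∈ Pt j c D L a K := Finset.mem_filter.mpr ⟨heP, het⟩
      obtain ⟨heK, heu, hea⟩ := h.mem_Pt hePt
      have hu := h.u_pos heK
      have h2 := h.h2r heK hrK
      refine ⟨c + j * D + L, ?_, ?_, ?_⟩
      · intro k hk
        exact (h.mem_Pd hk).2.1
      · push_cast; nlinarith
      · have e1 : ((c + j * D + L : ℕ) : ℝ) - c = j * D + L := by push_cast; ring
        rw [e1]
        refine aux_top (j : ℝ) c D L ((e : ℝ) - c) ((r : ℝ) - c) (a e) (a r) _ _ hj hD hc hLr rfl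
          rfl ?_ heu hea hra ?_
        · have : (0:ℝ) < (j : ℝ) * D := by positivity
          linarith
        · have e5 : ((e : ℝ) - c + c + 1) * ((r : ℝ) - c + c - a e) =
            ((e : ℝ) + 1) * ((r : ℝ) - a e) := by ring
          rw [e5]; exact h2
    · -- e deep
      have hePd : e ∈ Pd j c D L a K := Finset.mem_filter.mpr ⟨heP, het⟩
      obtain ⟨heK, helt, heu, hea⟩ := h.mem_Pd hePd
      have h2 := h.h2r heK hrK
      have hu := h.u_pos heK
      have hepos : 1 ≤ e := by omega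
      refine ⟨e - 1, ?_, ?_, ?_⟩
      · intro k hk
        have : e ≤ k := Finset.min'_le _ _ (Finset.mem_filter.mp hk).1
        omega
      · have e1 : ((e - 1 : ℕ) : ℝ) = (e : ℝ) - 1 := by
          rw [Nat.cast_sub hepos]; simp
        rw [e1]
        nlinarith
      · have e1 : ((e - 1 : ℕ) : ℝ) = (e : ℝ) - 1 := by
          rw [Nat.cast_sub hepos]; simp
        rw [e1]
        have e2 : (e : ℝ) - 1 - c = ((e : ℝ) - c) - 1 := by ring
        rw [e2]
        refine aux_deep (j : ℝ) c D ((e : ℝ) - c) ((r : ℝ) - c) (a e) (a r) _ _ hj hD hc rfl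
          rfl ?_ hea hra ?_
        · have : (0:ℝ) < (j : ℝ) * D := by positivity
          linarith
        · have e5 : ((e : ℝ) - c + c + 1) * ((r : ℝ) - c + c - a e) =
            ((e : ℝ) + 1) * ((r : ℝ) - a e) := by ring
          rw [e5]; exact h2
  have key := logsum' (Pd j c D L a K) (((j : ℝ) + 1) * D - c) p r
    (by linarith) (le_of_lt (hp1 r hrP)) (by
      intro k hk
      exact ⟨hp1 k hk, Finset.le_max' _ _ hk⟩)
  refine le_trans key ?_
  apply Real.log_le_log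
  · apply div_pos
    · have := hp1 r hrP
      have : (p : ℝ) < r := by exact_mod_cast this
      linarith
    · linarith
  · rw [div_le_iff₀ (by linarith)]
    have e1 : (r : ℝ) + (((j : ℝ) + 1) * D - c) = ((r : ℝ) - c) + ((j : ℝ) + 1) * D := by ring
    have e2 : (p : ℝ) + (((j : ℝ) + 1) * D - c) = ((p : ℝ) - c) + ((j : ℝ) + 1) * D := by ring
    rw [e1, e2]
    exact hp3

end Ctx

end Pool.Agent.LOS
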