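import Mathlib
import Pool.Agent.LOS.Deep

/-!
Numerical certificate for the middle range of indices.
-/

namespace Pool.Agent.LOS

open Finset

/-- fixed point scale for sums -/
def PN : ℕ := 1000000000

/-- fixed point scale for levels -/
def SC : ℕ := 1048576

/-- fixed point upper bound for the cap sum -/
def t2f (j D A : ℕ) : ℕ → ℕ
  | 0 => 0
  | (i + 1) => t2f j D A i +
      ((PN * 9 * (j + 1) / (8 * (A + (i + 1) + D)) + 1) - PN * j / (A + (i + 1)))

/-- the inequality to be checked at `d` and level `n` -/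
def okAt (j c t2 n d : ℕ) : Bool :=
  decide ((128 * t2 + 9 * n * PN) * (c * (c + d)) ≤ 128 * PN * (j * (j + 1) * d))

/-- walk through the levels -/
def walk (j c b W t2 : ℕ) : ℕ → ℕ → ℕ → ℕ → Bool
  | 0, _, _, _ => false
  | (f + 1), n, w, lo =>
    if 8 * (j + 1) * (W * SC) ≤ 9 * w then okAt j c t2 n lo
    else
      if lo ≤ (w / SC - b) / 9 then
        okAt j c t2 n lo && walk j c b W t2 f (n + 1) (w * 17 / 16) ((w / SC - b) / 9 + 1)
      else walk j c b W t2 f (n + 1) (w * 17 / 16) lo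

/-- full check at an index -/
def checkJ (j c D L : ℕ) : Bool :=
  decide (3 ≤ j ∧ 2 ≤ D ∧ L ≤ j + 2 * D + 2 ∧ (j * D + L + 1) / 9 < j * D ∧
    L * (c * (c + (j * D + L + 1) / 9)) ≤
      (j + 1) * ((j * D - (j * D + L + 1) / 9) * (j * D + L))) &&
  walk j c ((j + 1) * D) (j * D + L + (j + 1) * D) (t2f j D (j * D) L) 200 0
    ((j * D + L + (j + 1) * D) * SC) ((j * D + L + 1) / 9 + 1)

lemma t2f_sound (j c D A : ℕ) (hj : 1 ≤ j) (hA : 1 ≤ A) (L : ℕ) :
    ((j : ℝ) * (j + 1)) * ∑ k ∈ Finset.Ioc (c + A) (c + A + L),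
        ((9 / 8) / ((j : ℝ) * ((k : ℝ) - c + D)) - 1 / (((j : ℝ) + 1) * ((k : ℝ) - c))) ≤
      (t2f j D A L : ℝ) / PN := by
  induction L with
  | zero => simp [t2f]
  | succ i ih =>
    rw [show c + A + (i + 1) = (c + A + i) + 1 from rfl, Finset.sum_Ioc_succ_top (by omega),
      mul_add]
    have hjr : (0 : ℝ) < j := by exact_mod_cast hj
    have hAr : (0 : ℝ) < A := by exact_mod_cast hA
    have hPN : (0 : ℝ) < (PN : ℝ) := by unfold PN; norm_num
    have hi : (0 : ℝ) ≤ i := Nat.cast_nonneg i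
    have hD : (0 : ℝ) ≤ D := Nat.cast_nonneg D
    have e1 : ((c + A + i + 1 : ℕ) : ℝ) - c = A + (i + 1) := by push_cast; ring
    rw [e1]
    have e2 : t2f j D A (i + 1) = t2f j D A i +
      ((PN * 9 * (j + 1) / (8 * (A + (i + 1) + D)) + 1) - PN * j / (A + (i + 1))) := rfl
    rw [e2]
    push_cast
    rw [add_div]
    refine add_le_add ih ?_
    have hu : (0 : ℝ) < (A : ℝ) + (i + 1) := by positivity
    generalize hX : PN * 9 * (j + 1) / (8 * (A + (i + 1) + D)) + 1 = X
    generalize hY : PN * j / (A + (i + 1)) = Y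
    have hXr : (PN : ℝ) * 9 * (j + 1) / (8 * (A + (i + 1) + D)) ≤ X := by
      have h1 : PN * 9 * (j + 1) < (8 * (A + (i + 1) + D)) * X := by
        rw [← hX]
        have := Nat.lt_mul_div_succ (PN * 9 * (j + 1)) (b := 8 * (A + (i + 1) + D)) (by omega)
        exact this
      have h2 : ((PN * 9 * (j + 1) : ℕ) : ℝ) ≤ (((8 * (A + (i + 1) + D)) * X : ℕ) : ℝ) := by
        exact_mod_cast h1.le
      push_cast at h2
      rw [div_le_iff₀ (by positivity)]
      linarith
    have hYr : (Y : ℝ) ≤ (PN : ℝ) * j / (A + (i + 1)) := by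
      have h1 : Y * (A + (i + 1)) ≤ PN * j := by
        rw [← hY]; exact Nat.div_mul_le_self _ _
      have h2 : ((Y * (A + (i + 1)) : ℕ) : ℝ) ≤ ((PN * j : ℕ) : ℝ) := by exact_mod_cast h1
      push_cast at h2
      rw [le_div_iff₀ hu]
      linarith
    have hXY : (X : ℝ) - Y ≤ ((X - Y : ℕ) : ℝ) := by
      have h1 : X ≤ (X - Y) + Y := by omega
      have h2 : (X : ℝ) ≤ (((X - Y) + Y : ℕ) : ℝ) := by exact_mod_cast h1
      push_cast at h2
      linarith
    rw [le_div_iff₀ hPN]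
    refine le_trans (le_of_eq ?_) (le_trans (sub_le_sub hXr hYr) hXY)
    field_simp

/-- upper bound of a logarithm by a level -/
lemma log_level (x : ℝ) (hx : 0 < x) (n : ℕ) (h : x ≤ (17 / 16 : ℝ) ^ n) :
    Real.log x ≤ n / 16 := by
  have h1 : Real.log x ≤ Real.log ((17 / 16 : ℝ) ^ n) := Real.log_le_log hx h
  rw [Real.log_pow] at h1
  have h2 : Real.log (17 / 16 : ℝ) ≤ 17 / 16 - 1 := Real.log_le_sub_one_of_pos (by norm_num)
  have h3 : (0 : ℝ) ≤ n := Nat.cast_nonneg n
  nlinarith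

variable {j c D L : ℕ} {a : ℕ → ℕ} {K : Finset ℕ} {d : ℕ}

namespace Ctx

lemma total_level (h : Ctx j c D L a K d) (hj3 : 3 ≤ j) (hD2 : 2 ≤ D)
    (hL : L ≤ j + 2 * D + 2) (n : ℕ)
    (hlev : (9 * d + (j + 1) * D) * 16 ^ n ≤ (j * D + L + (j + 1) * D) * 17 ^ n ∨
      8 * (j + 1) * 16 ^ n ≤ 9 * 17 ^ n) :
    ((j : ℝ) * (j + 1)) * ∑ k ∈ K, chg j c D L (1 / (a k : ℝ)) k ≤
      (t2f j D (j * D) L : ℝ) / PN + 9 * n / 128 := by
  have hj := h.jr
  have hD := h.Dr
  have hn : (0 : ℝ) ≤ n := Nat.cast_nonneg n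
  rw [sum_chg_eq, mul_add]
  refine add_le_add ?_ ?_
  · refine le_trans (mul_le_mul_of_nonneg_left h.top_T2 (by positivity)) ?_
    have hjD : 1 ≤ j * D := Nat.mul_pos h.hj h.hD
    exact t2f_sound j c D (j * D) h.hj hjD L
  · have hjj : (0 : ℝ) < (j : ℝ) * (j + 1) := by positivity
    have scale : ∀ M : ℝ, ∑ k ∈ Pd j c D L a K, chg j c D L (1 / (a k : ℝ)) k ≤
        (9 / (8 * ((j : ℝ) * (j + 1)))) * M → M ≤ n / 16 →
        ((j : ℝ) * (j + 1)) * ∑ k ∈ Pd j c D L a K, chg j c D L (1 / (a k : ℝ)) k ≤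
          9 * n / 128 := by
      intro M h1 h2
      have h3 := mul_le_mul_of_nonneg_left h1 hjj.le
      have e : ((j : ℝ) * (j + 1)) * ((9 / (8 * ((j : ℝ) * (j + 1)))) * M) = 9 / 8 * M := by
        field_simp
      rw [e] at h3
      linarith
    rcases hlev with hlev | hlev
    · by_cases h9 : j * D + L ≤ 9 * d
      · refine scale _ (h.deep_G3 h9) ?_
        have hL0 : (0 : ℝ) ≤ L := Nat.cast_nonneg L
        have hd0 := h.dr
        have hden : (0 : ℝ) < (j : ℝ) * D + L + ((j : ℝ) + 1) * D := by positivity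
        apply log_level
        · apply div_pos _ hden
          positivity
        · rw [div_le_iff₀ hden]
          have h1 : (((9 * d + (j + 1) * D) * 16 ^ n : ℕ) : ℝ) ≤
              (((j * D + L + (j + 1) * D) * 17 ^ n : ℕ) : ℝ) := by exact_mod_cast hlev
          push_cast at h1
          rw [div_pow, div_mul_eq_mul_div, le_div_iff₀ (by positivity)]
          linarith
      · have hemp : Pd j c D L a K = ∅ := h.deep_empty (by omega)
        rw [hemp, Finset.sum_empty, mul_zero]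
        positivity
    · refine scale _ (h.deep_G4 hj3 hD2 hL) ?_
      apply log_level
      · positivity
      · have h1 : ((8 * (j + 1) * 16 ^ n : ℕ) : ℝ) ≤ ((9 * 17 ^ n : ℕ) : ℝ) := by
          exact_mod_cast hlev
        push_cast at h1
        rw [div_pow, le_div_iff₀ (by positivity)]
        linarith

lemma good_of_level (h : Ctx j c D L a K d) (hj3 : 3 ≤ j) (hD2 : 2 ≤ D)
    (hL : L ≤ j + 2 * D + 2) (n lo : ℕ) (hlo : lo ≤ d)
    (hlev : (9 * d + (j + 1) * D) * 16 ^ n ≤ (j * D + L + (j + 1) * D) * 17 ^ n ∨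
      8 * (j + 1) * 16 ^ n ≤ 9 * 17 ^ n)
    (hok : okAt j c (t2f j D (j * D) L) n lo = true) :
    ∑ k ∈ K, chg j c D L (1 / (a k : ℝ)) k ≤ (d : ℝ) / (c * (c + d)) := by
  have hj := h.jr
  have hc := h.cr
  have hd := h.dr
  have h1 := h.total_level hj3 hD2 hL n hlev
  have hjj : (0 : ℝ) < (j : ℝ) * (j + 1) := by positivity
  have hPN : (0 : ℝ) < (PN : ℝ) := by unfold PN; norm_num
  rw [okAt, decide_eq_true_eq] at hok
  have hok' : ((128 : ℝ) * (t2f j D (j * D) L : ℝ) + 9 * n * PN) * (c * (c + lo)) ≤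
      128 * PN * (j * (j + 1) * lo) := by exact_mod_cast hok
  have hlo' : (lo : ℝ) ≤ d := by exact_mod_cast hlo
  have hlo0 : (0 : ℝ) ≤ lo := Nat.cast_nonneg lo
  have hc0 : (0 : ℝ) < c := by linarith
  -- value at lo
  obtain ⟨V, hV⟩ : ∃ V : ℝ, V = (t2f j D (j * D) L : ℝ) / PN + 9 * n / 128 := ⟨_, rfl⟩
  have hVlo : V * (c * (c + lo)) ≤ (j * (j + 1) * lo) := by
    have e : ((128 : ℝ) * (t2f j D (j * D) L : ℝ) + 9 * n * PN) = 128 * PN * V := by
      rw [hV]; field_simp
    rw [e] at hok'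
    have : 0 < 128 * (PN : ℝ) := by positivity
    have h3 : 128 * (PN : ℝ) * (V * (c * (c + lo))) ≤ 128 * PN * (j * (j + 1) * lo) := by
      linarith
    exact le_of_mul_le_mul_left h3 this
  have hV0 : 0 ≤ V := by
    rw [hV]; positivity
  have hVd : V * (c * (c + d)) ≤ (j * (j + 1) * d) := by
    -- V c c ≤ lo (jj - V c), and similarly for d
    have h4 : V * c * c ≤ lo * (j * (j + 1) - V * c) := by nlinarith
    have h5 : 0 ≤ (j : ℝ) * (j + 1) - V * c := by
      by_contra hneg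
      push Not at hneg
      have h6 : lo * ((j : ℝ) * (j + 1) - V * c) ≤ 0 :=
        mul_nonpos_of_nonneg_of_nonpos hlo0 hneg.le
      have h7 : 0 ≤ V * c * c := by positivity
      have h8 : V * c * c = 0 := le_antisymm (le_trans h4 h6) h7
      have h9 : V = 0 := by
        rcases mul_eq_zero.mp h8 with h8 | h8
        · rcases mul_eq_zero.mp h8 with h8 | h8
          · exact h8
          · linarith
        · linarith
      rw [h9] at hneg
      linarith
    have h10 : lo * ((j : ℝ) * (j + 1) - V * c) ≤ d * ((j : ℝ) * (j + 1) - V * c) :=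
      mul_le_mul_of_nonneg_right hlo' h5
    linarith
  rw [le_div_iff₀ (by positivity)]
  have h11 : ((j : ℝ) * (j + 1)) * ((∑ k ∈ K, chg j c D L (1 / (a k : ℝ)) k) * (c * (c + d))) ≤
      ((j : ℝ) * (j + 1)) * d := by
    calc ((j : ℝ) * (j + 1)) * ((∑ k ∈ K, chg j c D L (1 / (a k : ℝ)) k) * (c * (c + d)))
        = (((j : ℝ) * (j + 1)) * (∑ k ∈ K, chg j c D L (1 / (a k : ℝ)) k)) * (c * (c + d)) := by
          ring
      _ ≤ V * (c * (c + d)) := by
          apply mul_le_mul_of_nonneg_right _ (by positivity)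
          rw [hV]; exact h1
      _ ≤ _ := hVd
  exact le_of_mul_le_mul_left h11 hjj

lemma walk_sound (h : Ctx j c D L a K d) (hj3 : 3 ≤ j) (hD2 : 2 ≤ D)
    (hL : L ≤ j + 2 * D + 2) (f : ℕ) : ∀ (n w lo : ℕ),
    w * 16 ^ n ≤ (j * D + L + (j + 1) * D) * SC * 17 ^ n →
    walk j c ((j + 1) * D) (j * D + L + (j + 1) * D) (t2f j D (j * D) L) f n w lo = true →
    lo ≤ d →
    ∑ k ∈ K, chg j c D L (1 / (a k : ℝ)) k ≤ (d : ℝ) / (c * (c + d)) := by
  induction f with
  | zero => intro n w lo _ hw _; simp [walk] at hw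
  | succ f ih =>
    intro n w lo hinv hw hlo
    have hSC : 0 < SC := by unfold SC; norm_num
    have hW : 0 < j * D + L + (j + 1) * D := by
      have : 1 ≤ (j + 1) * D := Nat.mul_pos (by omega) h.hD
      omega
    rw [walk] at hw
    have hinv' : w * 17 / 16 * 16 ^ (n + 1) ≤
        (j * D + L + (j + 1) * D) * SC * 17 ^ (n + 1) := by
      have h1 : w * 17 / 16 * 16 ≤ w * 17 := Nat.div_mul_le_self _ _
      calc w * 17 / 16 * 16 ^ (n + 1) = (w * 17 / 16 * 16) * 16 ^ n := by ring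
        _ ≤ (w * 17) * 16 ^ n := Nat.mul_le_mul_right _ h1
        _ = (w * 16 ^ n) * 17 := by ring
        _ ≤ ((j * D + L + (j + 1) * D) * SC * 17 ^ n) * 17 := Nat.mul_le_mul_right _ hinv
        _ = _ := by ring
    split_ifs at hw with h1 h2
    · -- final
      refine h.good_of_level hj3 hD2 hL n lo hlo (Or.inr ?_) hw
      have h3 : 8 * (j + 1) * ((j * D + L + (j + 1) * D) * SC) * 16 ^ n ≤ 9 * w * 16 ^ n :=
        Nat.mul_le_mul_right _ h1
      have h4 : ((j * D + L + (j + 1) * D) * SC) * (8 * (j + 1) * 16 ^ n) ≤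
          ((j * D + L + (j + 1) * D) * SC) * (9 * 17 ^ n) := by
        calc ((j * D + L + (j + 1) * D) * SC) * (8 * (j + 1) * 16 ^ n)
            = 8 * (j + 1) * ((j * D + L + (j + 1) * D) * SC) * 16 ^ n := by ring
          _ ≤ 9 * w * 16 ^ n := h3
          _ = 9 * (w * 16 ^ n) := by ring
          _ ≤ 9 * ((j * D + L + (j + 1) * D) * SC * 17 ^ n) := Nat.mul_le_mul_left _ hinv
          _ = _ := by ring
      exact Nat.le_of_mul_le_mul_left h4 (Nat.mul_pos hW hSC)
    · rw [Bool.and_eq_true] at hw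
      obtain ⟨hok, hw⟩ := hw
      by_cases h3 : d ≤ (w / SC - (j + 1) * D) / 9
      · refine h.good_of_level hj3 hD2 hL n lo hlo (Or.inl ?_) hok
        have hd := h.hd
        have h4 : 9 * d + (j + 1) * D ≤ w / SC := by omega
        have h5 : (9 * d + (j + 1) * D) * SC ≤ w :=
          le_trans (Nat.mul_le_mul_right _ h4) (Nat.div_mul_le_self _ _)
        have h6 : SC * ((9 * d + (j + 1) * D) * 16 ^ n) ≤
            SC * ((j * D + L + (j + 1) * D) * 17 ^ n) := by
          calc SC * ((9 * d + (j + 1) * D) * 16 ^ n)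
              = ((9 * d + (j + 1) * D) * SC) * 16 ^ n := by ring
            _ ≤ w * 16 ^ n := Nat.mul_le_mul_right _ h5
            _ ≤ _ := hinv
            _ = _ := by ring
        exact Nat.le_of_mul_le_mul_left h6 hSC
      · exact ih (n + 1) _ _ hinv' hw (by omega)
    · exact ih (n + 1) _ _ hinv' hw hlo

/-- small raise: no deep charges -/
lemma good_of_T1 (h : Ctx j c D L a K d) (h9 : 9 * d ≤ j * D + L + 1) (hdj : d < j * D)
    (hT : L * (c * (c + d)) ≤ (j + 1) * ((j * D - d) * (j * D + L))) :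
    ∑ k ∈ K, chg j c D L (1 / (a k : ℝ)) k ≤ (d : ℝ) / (c * (c + d)) := by
  have hj := h.jr
  have hc := h.cr
  have hd := h.dr
  have hc0 : (0 : ℝ) < c := by linarith
  rw [sum_chg_eq, h.deep_empty h9, Finset.sum_empty, add_zero]
  refine le_trans (h.top_T1 hdj) ?_
  have hdj' : (d : ℝ) < (j : ℝ) * D := by exact_mod_cast hdj
  have hL0 : (0 : ℝ) ≤ L := Nat.cast_nonneg L
  have hT' : (L : ℝ) * (c * (c + d)) ≤ (j + 1) * (((j : ℝ) * D - d) * (j * D + L)) := by
    have h1 : ((L * (c * (c + d)) : ℕ) : ℝ) ≤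
        (((j + 1) * ((j * D - d) * (j * D + L)) : ℕ) : ℝ) := by exact_mod_cast hT
    rw [Nat.cast_mul (j + 1), Nat.cast_mul (j * D - d), Nat.cast_sub hdj.le] at h1
    push_cast at h1
    exact h1
  have hp1 : 0 < (j : ℝ) * D - d := by linarith
  have hp2 : 0 < (j : ℝ) * D + L := by linarith
  rw [div_le_div_iff₀ (by positivity) (by positivity)]
  nlinarith [mul_le_mul_of_nonneg_left hT' (by linarith : (0:ℝ) ≤ d)]

theorem good_of_check (h : Ctx j c D L a K d) (hchk : checkJ j c D L = true) :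
    ∑ k ∈ K, chg j c D L (1 / (a k : ℝ)) k ≤ (d : ℝ) / (c * (c + d)) := by
  unfold checkJ at hchk
  rw [Bool.and_eq_true, decide_eq_true_eq] at hchk
  obtain ⟨⟨hj3, hD2, hL, hd1, hT⟩, hw⟩ := hchk
  by_cases h1 : d ≤ (j * D + L + 1) / 9
  · apply h.good_of_T1 (by omega) (by omega)
    refine le_trans (Nat.mul_le_mul_left _ (Nat.mul_le_mul_left _ (by omega))) (le_trans hT ?_)
    apply Nat.mul_le_mul_left
    apply Nat.mul_le_mul_right
    omega
  · exact h.walk_sound hj3 hD2 hL 200 0 _ _ (by simp) hw (by omega)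

end Ctx

end Pool.Agent.LOS
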