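import Mathlib
import Pool.Agent.LOS.Num

/-!
The range of large indices.
-/

namespace Pool.Agent.LOS

open Finset

lemma log_three_half : Real.log (3 / 2) ≤ 5 / 12 := by
  rw [Real.log_le_iff_le_exp (by norm_num)]
  have := Real.quadratic_le_exp_of_nonneg (x := (5 / 12 : ℝ)) (by norm_num)
  norm_num at this
  linarith

lemma log_five : Real.log 5 ≤ 5 / 3 := by
  have h1 : Real.log 125 ≤ 5 := by
    rw [Real.log_le_iff_le_exp (by norm_num)]
    have h2 : Real.exp 5 = (Real.exp 1) ^ 5 := by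
      rw [← Real.exp_nat_mul]; norm_num
    rw [h2]
    have h3 := Real.exp_one_gt_d9
    have h4 : (2.7 : ℝ) ^ 5 ≤ (Real.exp 1) ^ 5 := by
      apply pow_le_pow_left₀ (by norm_num)
      linarith
    have h5 : (125 : ℝ) ≤ (2.7 : ℝ) ^ 5 := by norm_num
    linarith
  have h2 : Real.log 125 = 3 * Real.log 5 := by
    rw [show (125 : ℝ) = 5 ^ 3 by norm_num, Real.log_pow]; norm_num
  linarith

lemma T2_closed (j c D L : ℕ) (hj : 1 ≤ j) (hD : 1 ≤ D) :
    ((j : ℝ) * (j + 1)) * ∑ k ∈ Finset.Ioc (c + j * D) (c + j * D + L),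
        ((9 / 8) / ((j : ℝ) * ((k : ℝ) - c + D)) - 1 / (((j : ℝ) + 1) * ((k : ℝ) - c))) ≤
      L * (1 / (8 * D) + L / ((j * D) * ((j + 1) * D))) := by
  have hjr : (1 : ℝ) ≤ j := by exact_mod_cast hj
  have hDr : (1 : ℝ) ≤ D := by exact_mod_cast hD
  rw [Finset.mul_sum]
  have h1 : ∀ k ∈ Finset.Ioc (c + j * D) (c + j * D + L),
      ((j : ℝ) * (j + 1)) *
        ((9 / 8) / ((j : ℝ) * ((k : ℝ) - c + D)) - 1 / (((j : ℝ) + 1) * ((k : ℝ) - c))) ≤
      1 / (8 * D) + L / ((j * D) * ((j + 1) * D)) := by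
    intro k hk
    rw [Finset.mem_Ioc] at hk
    have h2 : ((c + j * D : ℕ) : ℝ) < k := by exact_mod_cast hk.1
    have h3 : (k : ℝ) ≤ ((c + j * D + L : ℕ) : ℝ) := by exact_mod_cast hk.2
    push_cast at h2 h3
    have h4 : (j : ℝ) * D < (k : ℝ) - c := by linarith
    have h5 : (k : ℝ) - c - j * D ≤ L := by linarith
    generalize (k : ℝ) - c = u at h4 h5
    have hu : 0 < u := by nlinarith
    have e : ((j : ℝ) * (j + 1)) * ((9 / 8) / ((j : ℝ) * (u + D)) - 1 / (((j : ℝ) + 1) * u)) =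
        (1 / 8) * ((j + 1) / (u + D)) + (u - j * D) / (u * (u + D)) := by
      field_simp
      ring
    rw [e]
    refine add_le_add ?_ ?_
    · have h6 : ((j : ℝ) + 1) / (u + D) ≤ 1 / D := by
        rw [div_le_div_iff₀ (by positivity) (by positivity)]
        nlinarith
      have h7 : (1 : ℝ) / (8 * D) = (1 / 8) * (1 / D) := by
        field_simp
      rw [h7]
      exact mul_le_mul_of_nonneg_left h6 (by norm_num)
    · apply div_le_div₀
      · exact Nat.cast_nonneg L
      · exact h5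
      · positivity
      · apply mul_le_mul h4.le _ (by positivity) hu.le
        nlinarith
  have h2 := Finset.sum_le_card_nsmul _ _ _ h1
  refine le_trans h2 (le_of_eq ?_)
  rw [Nat.card_Ioc, nsmul_eq_mul]
  congr 1
  have : c + j * D + L - (c + j * D) = L := by omega
  rw [this]

lemma rhs_aux (j c D d : ℝ) (hj : 0 < j) (hc : 0 < c) (hD : 0 < D) (hd : 0 < d)
    (F1 : 3 * c ≤ 2 * (j * D)) :
    9 * d / (4 * (j * D) + 6 * d) * ((j + 1) / D) ≤ j * (j + 1) * (d / (c * (c + d))) := by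
  have e1 : 9 * d / (4 * (j * D) + 6 * d) * ((j + 1) / D) =
      (9 * (d * (j + 1))) / ((4 * (j * D) + 6 * d) * D) := by
    rw [div_mul_div_comm]; ring_nf
  have e2 : j * (j + 1) * (d / (c * (c + d))) = (j * (d * (j + 1))) / (c * (c + d)) := by
    rw [mul_div_assoc']; ring_nf
  rw [e1, e2, div_le_div_iff₀ (by positivity) (by positivity)]
  have s2 : (3 * c) * (3 * c + 3 * d) ≤ (2 * (j * D)) * (2 * (j * D) + 3 * d) := by
    apply mul_le_mul F1 (by linarith) (by positivity) (by positivity)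
  have s3 : 0 ≤ d * (j + 1) := by positivity
  have s4 := mul_le_mul_of_nonneg_right s2 s3
  calc 9 * (d * (j + 1)) * (c * (c + d)) = (3 * c) * (3 * c + 3 * d) * (d * (j + 1)) := by ring
    _ ≤ (2 * (j * D)) * (2 * (j * D) + 3 * d) * (d * (j + 1)) := s4
    _ = j * (d * (j + 1)) * ((4 * (j * D) + 6 * d) * D) := by ring

variable {j c D L : ℕ} {a : ℕ → ℕ} {K : Finset ℕ} {d : ℕ}

namespace Ctx

set_option maxHeartbeats 2000000 in
theorem good_large (h : Ctx j c D L a K d) (hj : 351 ≤ j) (hD2 : 2 ≤ D)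
    (F1 : 3 * c ≤ 2 * (j * D)) (hD10 : 10 * D ≤ j + 1) (hL1 : 2 * D ≤ L)
    (hL2 : L ≤ j + 2 * D + 2)
    (hlog : 9 / 8 * (D : ℝ) * Real.log (8 * ((j : ℝ) + 1) / 9) ≤ 37 / 50 * ((j : ℝ) + 1)) :
    ∑ k ∈ K, chg j c D L (1 / (a k : ℝ)) k ≤ (d : ℝ) / (c * (c + d)) := by
  have hjr : (351 : ℝ) ≤ j := by exact_mod_cast hj
  have hDr : (2 : ℝ) ≤ D := by exact_mod_cast hD2
  have hcr := h.cr
  have hdr := h.dr
  have F1r : 3 * (c : ℝ) ≤ 2 * (j * D) := by exact_mod_cast F1
  have hD10r : 10 * (D : ℝ) ≤ j + 1 := by exact_mod_cast hD10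
  have hL1r : 2 * (D : ℝ) ≤ L := by exact_mod_cast hL1
  have hL2r : (L : ℝ) ≤ j + 2 * D + 2 := by exact_mod_cast hL2
  have hL3 : (L : ℝ) ≤ 5 / 4 * (j + 1) := by linarith
  have hjD : (j : ℝ) * 2 ≤ j * D := by nlinarith
  have hP0 : (0 : ℝ) < j * D := by positivity
  by_cases h9 : 9 * d ≤ j * D + L
  · -- T1 regime
    have h9r : 9 * (d : ℝ) ≤ j * D + L := by exact_mod_cast h9
    have hdj : d < j * D := by
      have : (d : ℝ) < ((j * D : ℕ) : ℝ) := by
        push_cast
        nlinarith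
      exact_mod_cast this
    apply h.good_of_T1 (by omega) hdj
    have goal : (L : ℝ) * (c * (c + d)) ≤ (j + 1) * (((j : ℝ) * D - d) * (j * D + L)) := by
      obtain ⟨Q, hQ⟩ : ∃ x : ℝ, x = (j : ℝ) * D := ⟨_, rfl⟩
      rw [← hQ] at F1r hjD hP0 h9r ⊢
      have hc2 : (c : ℝ) ≤ 2 / 3 * Q := by linarith
      have hc0 : (0 : ℝ) ≤ c := by linarith
      have hL0 : (0 : ℝ) ≤ L := by linarith
      have s1 : (c : ℝ) * (c + d) ≤ (2 / 3 * Q) * (2 / 3 * Q + (Q + L) / 9) := by
        apply mul_le_mul hc2 (by linarith) (by linarith) (by positivity)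
      have s2 : (L : ℝ) * (c * (c + d)) ≤
          (5 / 4 * (j + 1)) * ((2 / 3 * Q) * (2 / 3 * Q + (Q + L) / 9)) := by
        apply mul_le_mul hL3 s1 (by positivity) (by positivity)
      have s3 : (Q - (Q + L) / 9) * (Q + L) ≤ (Q - d) * (Q + L) := by
        apply mul_le_mul_of_nonneg_right (by linarith) (by linarith)
      have hLQ : (L : ℝ) ≤ Q := by linarith
      have s4 : 5 / 4 * ((2 / 3 * Q) * (2 / 3 * Q + (Q + L) / 9)) ≤
          (Q - (Q + L) / 9) * (Q + L) := by
        nlinarith [mul_nonneg hP0.le hL0, mul_nonneg hL0 (by linarith : (0:ℝ) ≤ Q - L)]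
      calc (L : ℝ) * (c * (c + d)) ≤ _ := s2
        _ = (j + 1) * (5 / 4 * ((2 / 3 * Q) * (2 / 3 * Q + (Q + L) / 9))) := by ring
        _ ≤ (j + 1) * ((Q - (Q + L) / 9) * (Q + L)) :=
            mul_le_mul_of_nonneg_left s4 (by linarith)
        _ ≤ (j + 1) * ((Q - d) * (Q + L)) := mul_le_mul_of_nonneg_left s3 (by linarith)
    have goal2 : ((L * (c * (c + d)) : ℕ) : ℝ) ≤
        (((j + 1) * ((j * D - d) * (j * D + L)) : ℕ) : ℝ) := by
      rw [Nat.cast_mul (j + 1), Nat.cast_mul (j * D - d), Nat.cast_sub hdj.le]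
      push_cast
      exact goal
    exact_mod_cast goal2
  · -- T2 regime
    have h9' : j * D + L < 9 * d := by omega
    have h9r : (j : ℝ) * D + L < 9 * d := by exact_mod_cast h9'
    have hjj : (0 : ℝ) < (j : ℝ) * (j + 1) := by positivity
    have hc0 : (0 : ℝ) < c := by linarith
    -- bound of the total by x
    obtain ⟨x, hx⟩ : ∃ x : ℝ, x = ((j : ℝ) + 1) / D := ⟨_, rfl⟩
    have hx10 : 10 ≤ x := by
      rw [hx, le_div_iff₀ (by linarith)]; linarith
    have htop : ((j : ℝ) * (j + 1)) * ∑ k ∈ Pt j c D L a K, chg j c D L (1 / (a k : ℝ)) k ≤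
        4 / 25 * x := by
      refine le_trans (mul_le_mul_of_nonneg_left h.top_T2 hjj.le) ?_
      refine le_trans (T2_closed j c D L h.hj h.hD) ?_
      have s1 : (L : ℝ) * (1 / (8 * D)) ≤ 5 / 32 * x := by
        rw [hx]
        have : (L : ℝ) * (1 / (8 * D)) = (L : ℝ) / (8 * D) := by ring
        rw [this, ← mul_div_assoc, div_le_div_iff₀ (by positivity) (by positivity)]
        nlinarith
      have s2 : (L : ℝ) * (L / ((j * D) * ((j + 1) * D))) ≤ 1 / 400 * x := by
        have s3 : (L : ℝ) * L ≤ (5 / 4 * (j + 1)) * (5 / 4 * (j + 1)) := by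
          apply mul_le_mul hL3 hL3 (by positivity) (by positivity)
        have e : (L : ℝ) * (L / ((j * D) * ((j + 1) * D))) =
            (L * L) / ((j * D) * ((j + 1) * D)) := by ring
        rw [e, hx, ← mul_div_assoc, div_le_div_iff₀ (by positivity) (by positivity)]
        have s4 : (L : ℝ) * L * D ≤ (5 / 4 * (j + 1)) * (5 / 4 * (j + 1)) * D :=
          mul_le_mul_of_nonneg_right s3 (by linarith)
        have s5 : (5 / 4 * ((j : ℝ) + 1)) * (5 / 4 * (j + 1)) * D ≤
            1 / 400 * (j + 1) * ((j * D) * ((j + 1) * D)) := by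
          have s6 : (25 / 16 : ℝ) ≤ 1 / 400 * (j * D) := by linarith
          have s7 : 0 ≤ ((j : ℝ) + 1) * (j + 1) * D := by positivity
          nlinarith [mul_le_mul_of_nonneg_right s6 s7]
        linarith
      have e2 : (L : ℝ) * (1 / (8 * D) + L / ((j * D) * ((j + 1) * D))) =
          (L : ℝ) * (1 / (8 * D)) + (L : ℝ) * (L / ((j * D) * ((j + 1) * D))) := by ring
      rw [e2]
      linarith
    -- right side
    have hrhs : 9 * (d : ℝ) / (4 * (j * D) + 6 * d) * x ≤
        (j : ℝ) * (j + 1) * (d / (c * (c + d))) := by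
      rw [hx]
      exact rhs_aux (j : ℝ) c D d (by linarith) hc0 (by linarith) (by linarith) F1r
    -- it suffices to bound the deep part
    have finish : ∀ M z : ℝ, ∑ k ∈ Pd j c D L a K, chg j c D L (1 / (a k : ℝ)) k ≤
        (9 / (8 * ((j : ℝ) * (j + 1)))) * M → 4 / 25 * x + 9 / 8 * M ≤ z * x →
        z ≤ 9 * (d : ℝ) / (4 * (j * D) + 6 * d) →
        ∑ k ∈ K, chg j c D L (1 / (a k : ℝ)) k ≤ (d : ℝ) / (c * (c + d)) := by
      intro M z h1 h2 h3
      have h4 := mul_le_mul_of_nonneg_left h1 hjj.le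
      have e : ((j : ℝ) * (j + 1)) * ((9 / (8 * ((j : ℝ) * (j + 1)))) * M) = 9 / 8 * M := by
        field_simp
      rw [e] at h4
      have h5 : z * x ≤ 9 * (d : ℝ) / (4 * (j * D) + 6 * d) * x :=
        mul_le_mul_of_nonneg_right h3 (by linarith)
      have h6 : ((j : ℝ) * (j + 1)) * ∑ k ∈ K, chg j c D L (1 / (a k : ℝ)) k ≤
          (j : ℝ) * (j + 1) * (d / (c * (c + d))) := by
        rw [sum_chg_eq, mul_add]
        linarith
      exact le_of_mul_le_mul_left h6 hjj
    have hden : (0 : ℝ) < (j : ℝ) * D + L + ((j : ℝ) + 1) * D := by positivity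
    have hG3 := h.deep_G3 (by omega : j * D + L ≤ 9 * d)
    by_cases hz1 : 9 * (d : ℝ) ≤ 2 * (j * D)
    · refine finish (5 / 12) (3 / 14) ?_ (by linarith) ?_
      · refine le_trans hG3 (mul_le_mul_of_nonneg_left ?_ (by positivity))
        refine le_trans (Real.log_le_log (by positivity) ?_) log_three_half
        rw [div_le_iff₀ hden]
        linarith
      · rw [le_div_iff₀ (by positivity)]
        linarith
    · push Not at hz1
      by_cases hz2 : (d : ℝ) ≤ j * D
      · refine finish (5 / 3) (3 / 8) ?_ (by linarith) ?_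
        · refine le_trans hG3 (mul_le_mul_of_nonneg_left ?_ (by positivity))
          refine le_trans (Real.log_le_log (by positivity) ?_) log_five
          rw [div_le_iff₀ hden]
          linarith
        · rw [le_div_iff₀ (by positivity)]
          linarith
      · push Not at hz2
        refine finish (Real.log (8 * ((j : ℝ) + 1) / 9)) (9 / 10) ?_ ?_ ?_
        · exact h.deep_G4 (by omega) hD2 hL2
        · have : 9 / 8 * Real.log (8 * ((j : ℝ) + 1) / 9) ≤ 37 / 50 * x := by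
            rw [hx, ← mul_div_assoc, le_div_iff₀ (by linarith)]
            linarith
          linarith
        · rw [le_div_iff₀ (by positivity)]
          linarith

end Ctx

end Pool.Agent.LOS
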