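import Mathlib
import Pool.Agent.LOS.Large

/-!
The indices 1, 2, 3, 4.
-/

namespace Pool.Agent.LOS

open Finset

/-- fixed point upper bound for one charge, `u = A + i` -/
def exT (j D L A d u : ℕ) : ℕ :=
  (if d < u then min (PN / ((j + 1) * (u - d)) + 1) (PN * 9 / (8 * (j * (u + D))) + 1)
    else PN * 9 / (8 * (j * (u + D))) + 1) -
  (if u ≤ A + L then PN / ((j + 1) * u) else PN * 9 / (8 * ((j + 1) * u)))

/-- fixed point upper bound for the sum of the charges -/
def exS (j D L A d : ℕ) : ℕ → ℕ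
  | 0 => 0
  | (i + 1) => exS j D L A d i + exT j D L A d (A + (i + 1))

/-- explicit check -/
def exCheck (j c D L d : ℕ) : Bool :=
  decide (exS j D L (j * D) d (L + 9 * d) * (c * (c + d)) ≤ PN * d)

lemma exS_eq (j D L A d c : ℕ) (R : ℕ) :
    ∑ k ∈ Finset.Ioc (c + A) (c + A + R), (exT j D L A d (k - c) : ℝ) = exS j D L A d R := by
  induction R with
  | zero => simp [exS]
  | succ i ih =>
    rw [show c + A + (i + 1) = (c + A + i) + 1 from rfl, Finset.sum_Ioc_succ_top (by omega), ih]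
    have e : c + A + i + 1 - c = A + (i + 1) := by omega
    rw [e]
    have e2 : exS j D L A d (i + 1) = exS j D L A d i + exT j D L A d (A + (i + 1)) := rfl
    rw [e2]
    push_cast
    ring

lemma le_natDiv_succ (m n : ℕ) (hn : 0 < n) (y : ℝ) (hy : y = (n : ℝ)) :
    (m : ℝ) / y ≤ ((m / n + 1 : ℕ) : ℝ) := by
  have hn' : (0 : ℝ) < n := by exact_mod_cast hn
  rw [hy, div_le_iff₀ hn']
  have h1 : m < n * (m / n + 1) := Nat.lt_mul_div_succ m hn
  have h2 : (m : ℝ) ≤ ((n * (m / n + 1) : ℕ) : ℝ) := by exact_mod_cast h1.le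
  push_cast at h2 ⊢
  linarith

lemma natDiv_le' (m n : ℕ) (hn : 0 < n) (y : ℝ) (hy : y = (n : ℝ)) :
    ((m / n : ℕ) : ℝ) ≤ (m : ℝ) / y := by
  have hn' : (0 : ℝ) < n := by exact_mod_cast hn
  rw [hy, le_div_iff₀ hn']
  have h1 : m / n * n ≤ m := Nat.div_mul_le_self m n
  have h2 : ((m / n * n : ℕ) : ℝ) ≤ (m : ℝ) := by exact_mod_cast h1
  push_cast at h2
  linarith

variable {j c D L : ℕ} {a : ℕ → ℕ} {K : Finset ℕ} {d : ℕ}

namespace Ctx

lemma chg_le_exT (h : Ctx j c D L a K d) {k : ℕ} (hk : k ∈ K) :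
    chg j c D L (1 / (a k : ℝ)) k ≤ (exT j D L (j * D) d (k - c) : ℝ) / PN := by
  have hPN : (0 : ℝ) < (PN : ℝ) := by unfold PN; norm_num
  have hPN1 : 0 < PN := by unfold PN; norm_num
  have hj := h.jr
  have hD := h.Dr
  have hd := h.dr
  have hkc := h.hK k hk
  have hjD : 1 ≤ j * D := Nat.mul_pos h.hj h.hD
  have hu := h.u_pos hk
  obtain ⟨u, hukc⟩ : ∃ u : ℕ, k = c + u := ⟨k - c, by omega⟩
  have huc : k - c = u := by omega
  have hur : (k : ℝ) - c = u := by rw [hukc]; push_cast; ring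
  have hu1 : j * D < u := by omega
  have hu0 : 0 < u := by omega
  have hu0r : (0 : ℝ) < u := by exact_mod_cast hu0
  rw [huc]
  -- lower part
  obtain ⟨Y, hY⟩ : ∃ Y : ℕ, Y = (if u ≤ j * D + L then PN / ((j + 1) * u)
      else PN * 9 / (8 * ((j + 1) * u))) := ⟨_, rfl⟩
  have hYle : (Y : ℝ) ≤ PN * low j c D L k := by
    unfold low
    rw [hur, hY]
    have hiff : (k ≤ c + j * D + L) ↔ (u ≤ j * D + L) := by omega
    by_cases hif : u ≤ j * D + L
    · rw [if_pos hif, if_pos (hiff.mpr hif)]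
      have := natDiv_le' PN ((j + 1) * u) (by positivity) (((j : ℝ) + 1) * u) (by push_cast; ring)
      refine le_trans this (le_of_eq ?_)
      ring
    · rw [if_neg hif, if_neg (fun hh => hif (hiff.mp hh))]
      have := natDiv_le' (PN * 9) (8 * ((j + 1) * u)) (by positivity)
        (8 * (((j : ℝ) + 1) * u)) (by push_cast; ring)
      refine le_trans this (le_of_eq ?_)
      push_cast
      field_simp
  -- upper part
  obtain ⟨X, hX⟩ : ∃ X : ℕ, X = (if d < u then min (PN / ((j + 1) * (u - d)) + 1)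
      (PN * 9 / (8 * (j * (u + D))) + 1) else PN * 9 / (8 * (j * (u + D))) + 1) := ⟨_, rfl⟩
  have hcapX : PN * cap j c D k ≤ ((PN * 9 / (8 * (j * (u + D))) + 1 : ℕ) : ℝ) := by
    unfold cap
    rw [hur]
    have := le_natDiv_succ (PN * 9) (8 * (j * (u + D)))
      (by have := h.hj; positivity) (8 * ((j : ℝ) * (u + D))) (by push_cast; ring)
    refine le_trans (le_of_eq ?_) this
    push_cast
    field_simp
  have hXge : PN * (min (1 / (a k : ℝ)) (cap j c D k)) ≤ X := by
    rw [hX]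
    have h1 : PN * (min (1 / (a k : ℝ)) (cap j c D k)) ≤ PN * cap j c D k :=
      mul_le_mul_of_nonneg_left (min_le_right _ _) hPN.le
    by_cases hif : d < u
    · rw [if_pos hif]
      have hdu : (d : ℝ) < u := by exact_mod_cast hif
      have h2 : PN * (min (1 / (a k : ℝ)) (cap j c D k)) ≤
          ((PN / ((j + 1) * (u - d)) + 1 : ℕ) : ℝ) := by
        have h3 := h.h1r hk
        rw [hur] at h3
        have hpos : 0 < ((j : ℝ) + 1) * ((u : ℝ) - d) := by
          apply mul_pos <;> linarith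
        have h4 : 1 / (a k : ℝ) ≤ 1 / (((j : ℝ) + 1) * ((u : ℝ) - d)) :=
          one_div_le_one_div_of_le hpos h3
        have h5 := le_natDiv_succ PN ((j + 1) * (u - d))
          (Nat.mul_pos (by omega) (by omega)) (((j : ℝ) + 1) * ((u : ℝ) - d))
          (by rw [Nat.cast_mul, Nat.cast_sub hif.le]; push_cast; ring)
        refine le_trans ?_ h5
        have h6 : PN * (min (1 / (a k : ℝ)) (cap j c D k)) ≤ PN * (1 / (a k : ℝ)) :=
          mul_le_mul_of_nonneg_left (min_le_left _ _) hPN.le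
        refine le_trans h6 (le_trans (mul_le_mul_of_nonneg_left h4 hPN.le) (le_of_eq ?_))
        rw [mul_one_div]
      rw [Nat.cast_min]
      exact le_min h2 (le_trans h1 hcapX)
    · rw [if_neg hif]
      exact le_trans h1 hcapX
  have hexT : exT j D L (j * D) d u = X - Y := by
    unfold exT
    rw [hX, hY]
  rw [hexT, le_div_iff₀ hPN]
  have hXY : (X : ℝ) - Y ≤ ((X - Y : ℕ) : ℝ) := by
    have h1 : X ≤ (X - Y) + Y := by omega
    have h2 : (X : ℝ) ≤ (((X - Y) + Y : ℕ) : ℝ) := by exact_mod_cast h1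
    push_cast at h2
    linarith
  have h0 : (0 : ℝ) ≤ ((X - Y : ℕ) : ℝ) := Nat.cast_nonneg _
  unfold chg
  rcases le_total 0 (min (1 / (a k : ℝ)) (cap j c D k) - low j c D L k) with hh | hh
  · rw [max_eq_right hh]
    linarith
  · rw [max_eq_left hh]
    linarith

theorem good_of_ex (h : Ctx j c D L a K d) (hex : exCheck j c D L d = true) :
    ∑ k ∈ K, chg j c D L (1 / (a k : ℝ)) k ≤ (d : ℝ) / (c * (c + d)) := by
  have hPN : (0 : ℝ) < (PN : ℝ) := by unfold PN; norm_num
  have hj := h.jr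
  have hc := h.cr
  have hd := h.dr
  unfold exCheck at hex
  rw [decide_eq_true_eq] at hex
  have hsub : P j c D L a K ⊆ Finset.Ioc (c + j * D) (c + j * D + (L + 9 * d)) := by
    intro k hk
    have hkK : k ∈ K := (Finset.mem_filter.mp hk).1
    have h1 := h.hK k hkK
    rw [Finset.mem_Ioc]
    refine ⟨h1, ?_⟩
    by_cases hle : k ≤ c + j * D + L
    · omega
    · have hPd : k ∈ Pd j c D L a K := Finset.mem_filter.mpr ⟨hk, hle⟩
      have h2 := h.deep_range hPd
      have h3 : (k : ℝ) < ((c + 9 * d : ℕ) : ℝ) := by push_cast; linarith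
      have h4 : k < c + 9 * d := by exact_mod_cast h3
      omega
  have h0 : ∑ k ∈ K, chg j c D L (1 / (a k : ℝ)) k =
      ∑ k ∈ P j c D L a K, chg j c D L (1 / (a k : ℝ)) k := by
    rw [sum_chg_eq]
    unfold Pt Pd
    rw [Finset.sum_filter_add_sum_filter_not]
  rw [h0]
  have h1 : ∑ k ∈ P j c D L a K, chg j c D L (1 / (a k : ℝ)) k ≤
      ∑ k ∈ P j c D L a K, (exT j D L (j * D) d (k - c) : ℝ) / PN := by
    apply Finset.sum_le_sum
    intro k hk
    exact h.chg_le_exT (Finset.mem_filter.mp hk).1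
  have h2 : ∑ k ∈ P j c D L a K, (exT j D L (j * D) d (k - c) : ℝ) / PN ≤
      ∑ k ∈ Finset.Ioc (c + j * D) (c + j * D + (L + 9 * d)),
        (exT j D L (j * D) d (k - c) : ℝ) / PN := by
    apply Finset.sum_le_sum_of_subset_of_nonneg hsub
    intro k _ _
    positivity
  have h2' : ∑ k ∈ Finset.Ioc (c + j * D) (c + j * D + (L + 9 * d)),
        (exT j D L (j * D) d (k - c) : ℝ) / PN =
      (exS j D L (j * D) d (L + 9 * d) : ℝ) / PN := by
    rw [← Finset.sum_div, exS_eq]
  rw [h2'] at h2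
  refine le_trans h1 (le_trans h2 ?_)
  have hex' : (exS j D L (j * D) d (L + 9 * d) : ℝ) * (c * (c + d)) ≤ PN * d := by
    exact_mod_cast hex
  have hc0 : (0 : ℝ) < c := by linarith
  rw [div_le_div_iff₀ hPN (by positivity)]
  linarith

end Ctx

lemma log_three : Real.log 3 ≤ 9 / 8 := by
  have h1 : Real.log 3 = Real.log 2 + Real.log (3 / 2) := by
    rw [← Real.log_mul (by norm_num) (by norm_num)]; norm_num
  have h2 := log_three_half
  have h3 := Real.log_two_lt_d9
  rw [h1]; linarith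

/-- the case `j = 1` -/
theorem good_one (h : Ctx 1 1 1 2 a K d) :
    ∑ k ∈ K, chg 1 1 1 2 (1 / (a k : ℝ)) k ≤ (d : ℝ) / ((1 : ℕ) * ((1 : ℕ) + d)) := by
  have hd := h.dr
  have hrhs : (1 : ℝ) / 2 ≤ (d : ℝ) / ((1 : ℕ) * ((1 : ℕ) + d)) := by
    push_cast
    rw [div_le_div_iff₀ (by norm_num) (by positivity)]
    linarith
  refine le_trans ?_ hrhs
  have h0 : ∑ k ∈ K, chg 1 1 1 2 (1 / (a k : ℝ)) k =
      ∑ k ∈ P 1 1 1 2 a K, chg 1 1 1 2 (1 / (a k : ℝ)) k := by
    rw [sum_chg_eq]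
    unfold Pt Pd
    rw [Finset.sum_filter_add_sum_filter_not]
  rw [h0]
  rcases Finset.eq_empty_or_nonempty (P 1 1 1 2 a K) with hemp | hne
  · rw [hemp]; norm_num
  -- pointwise bound
  have hpt : ∀ k ∈ P 1 1 1 2 a K, 3 ≤ k ∧ k ≤ a k ∧
      chg 1 1 1 2 (1 / (a k : ℝ)) k ≤ 1 / (k : ℝ) - low 1 1 1 2 k := by
    intro k hk
    obtain ⟨hkK, hlow⟩ := Finset.mem_filter.mp hk
    have h1 := h.hK k hkK
    have h2 := h.hself k hkK
    refine ⟨by omega, h2, ?_⟩
    have hk0 : (0 : ℝ) < k := by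
      have : 0 < k := by omega
      exact_mod_cast this
    have h3 : 1 / (a k : ℝ) ≤ 1 / (k : ℝ) :=
      one_div_le_one_div_of_le hk0 (by exact_mod_cast h2)
    unfold chg
    apply max_le
    · linarith
    · have := min_le_left (1 / (a k : ℝ)) (cap 1 1 1 k)
      linarith
  set e := (P 1 1 1 2 a K).min' hne with he
  have heP : e ∈ P 1 1 1 2 a K := Finset.min'_mem _ _
  have heK : e ∈ K := (Finset.mem_filter.mp heP).1
  have he3 := (hpt e heP).1
  by_cases he5 : 5 ≤ e
  · -- all indices are deep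
    set r := (P 1 1 1 2 a K).max' hne with hr
    have hrP : r ∈ P 1 1 1 2 a K := Finset.max'_mem _ _
    have hrK : r ∈ K := (Finset.mem_filter.mp hrP).1
    have hall : ∀ k ∈ P 1 1 1 2 a K, e ≤ k := fun k hk => Finset.min'_le _ _ hk
    have her : e ≤ r := hall r hrP
    have hdeep : ∀ k ∈ P 1 1 1 2 a K, k ∈ Pd 1 1 1 2 a K := by
      intro k hk
      have := hall k hk
      exact Finset.mem_filter.mpr ⟨hk, by omega⟩
    have hb : r ≤ 3 * (e - 1) := by
      by_contra hcon
      push Not at hcon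
      obtain ⟨_, _, _, h4⟩ := h.mem_Pd (hdeep e heP)
      obtain ⟨_, _, _, h5⟩ := h.mem_Pd (hdeep r hrP)
      have h6 := h.h2r heK hrK
      have h7 : (3 : ℝ) * e - 2 ≤ r := by
        have : 3 * e ≤ r + 2 := by omega
        have : ((3 * e : ℕ) : ℝ) ≤ ((r + 2 : ℕ) : ℝ) := by exact_mod_cast this
        push_cast at this
        linarith
      have he5r : (5 : ℝ) ≤ e := by exact_mod_cast he5
      push_cast at h4 h5
      have h8 : ((e : ℝ) + 1) * (9 * a e) ≤ (e + 1) * (16 * (e - 1)) := by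
        apply mul_le_mul_of_nonneg_left (by linarith) (by linarith)
      have h9 : (9 * (e : ℝ) - 7) * r < 16 * e * e - 32 := by nlinarith
      have h10 : (9 * (e : ℝ) - 7) * (3 * e - 2) ≤ (9 * (e : ℝ) - 7) * r := by
        apply mul_le_mul_of_nonneg_left h7 (by linarith)
      nlinarith
    have hsum : ∑ k ∈ P 1 1 1 2 a K, chg 1 1 1 2 (1 / (a k : ℝ)) k ≤
        ∑ k ∈ P 1 1 1 2 a K, (7 / 16) * (1 / ((k : ℝ) + 0)) := by
      apply Finset.sum_le_sum
      intro k hk
      obtain ⟨h3k, _, hc⟩ := hpt k hk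
      refine le_trans hc ?_
      have hk5 : 5 ≤ k := le_trans he5 (hall k hk)
      have hk5r : (5 : ℝ) ≤ k := by exact_mod_cast hk5
      unfold low
      rw [if_neg (by omega)]
      push_cast
      have e1 : (9 / 8 : ℝ) / ((1 + 1) * ((k : ℝ) - 1)) = 9 / (16 * ((k : ℝ) - 1)) := by
        have : (k : ℝ) - 1 ≠ 0 := by linarith
        field_simp
        norm_num
      rw [e1]
      have h6 : (9 : ℝ) / (16 * k) ≤ 9 / (16 * ((k : ℝ) - 1)) := by
        apply div_le_div_of_nonneg_left (by norm_num) (by linarith) (by linarith)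
      have h7 : 1 / (k : ℝ) - 9 / (16 * k) = (7 / 16) * (1 / ((k : ℝ) + 0)) := by
        rw [add_zero]
        field_simp
        norm_num
      linarith
    rw [← Finset.mul_sum] at hsum
    have hlog := logsum' (P 1 1 1 2 a K) 0 (e - 1) r (by
        have : 0 < e - 1 := by omega
        have : (0 : ℝ) < ((e - 1 : ℕ) : ℝ) := by exact_mod_cast this
        linarith) (by omega) (by
        intro k hk
        exact ⟨by have := hall k hk; omega, Finset.le_max' _ _ hk⟩)
    have hlog2 : Real.log (((r : ℝ) + 0) / (((e - 1 : ℕ) : ℝ) + 0)) ≤ 9 / 8 := by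
      refine le_trans (Real.log_le_log ?_ ?_) log_three
      · rw [add_zero, add_zero]
        apply div_pos
        · have : 0 < r := by omega
          exact_mod_cast this
        · have : 0 < e - 1 := by omega
          exact_mod_cast this
      · rw [add_zero, add_zero, div_le_iff₀ (by
          have : 0 < e - 1 := by omega
          exact_mod_cast this)]
        exact_mod_cast hb
    have : (7 / 16 : ℝ) * (9 / 8) ≤ 1 / 2 := by norm_num
    linarith
  · -- e is 3 or 4
    have h7 : ∀ k ∈ P 1 1 1 2 a K, k ≤ 7 := by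
      intro k hk
      by_contra hcon
      push Not at hcon
      have hkd : k ∈ Pd 1 1 1 2 a K := Finset.mem_filter.mpr ⟨hk, by omega⟩
      obtain ⟨hkK, _, _, h5⟩ := h.mem_Pd hkd
      have hePt : e ∈ Pt 1 1 1 2 a K := Finset.mem_filter.mpr ⟨heP, by omega⟩
      obtain ⟨_, _, h4⟩ := h.mem_Pt hePt
      have h6 := h.h2r heK hkK
      have hk8 : (8 : ℝ) ≤ k := by exact_mod_cast hcon
      push_cast at h4 h5
      have hcases : e = 3 ∨ e = 4 := by omega
      rcases hcases with hh | hh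
      · rw [hh] at h4 h6
        push_cast at h4 h6
        have : (a 3 : ℝ) < 4 := by linarith
        have h8 : a 3 < 4 := by exact_mod_cast this
        have h9 : (a 3 : ℝ) ≤ 3 := by
          have : a 3 ≤ 3 := by omega
          exact_mod_cast this
        linarith
      · rw [hh] at h4 h6
        push_cast at h4 h6
        have : (a 4 : ℝ) < 6 := by linarith
        have h8 : a 4 < 6 := by exact_mod_cast this
        have h9 : (a 4 : ℝ) ≤ 5 := by
          have : a 4 ≤ 5 := by omega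
          exact_mod_cast this
        linarith
    have hsub : P 1 1 1 2 a K ⊆ Finset.Icc 3 7 := by
      intro k hk
      exact Finset.mem_Icc.mpr ⟨(hpt k hk).1, h7 k hk⟩
    have hs1 : ∑ k ∈ P 1 1 1 2 a K, chg 1 1 1 2 (1 / (a k : ℝ)) k ≤
        ∑ k ∈ P 1 1 1 2 a K, (1 / (k : ℝ) - low 1 1 1 2 k) := by
      apply Finset.sum_le_sum
      intro k hk
      exact (hpt k hk).2.2
    have hs2 : ∑ k ∈ P 1 1 1 2 a K, (1 / (k : ℝ) - low 1 1 1 2 k) ≤
        ∑ k ∈ Finset.Icc (3 : ℕ) 7, (1 / (k : ℝ) - low 1 1 1 2 k) := by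
      apply Finset.sum_le_sum_of_subset_of_nonneg hsub
      intro k hk _
      rw [Finset.mem_Icc] at hk
      obtain ⟨h1, h2⟩ := hk
      unfold low
      interval_cases k <;> norm_num
    have hs3 : ∑ k ∈ Finset.Icc (3 : ℕ) 7, (1 / (k : ℝ) - low 1 1 1 2 k) ≤ 1 / 2 := by
      have e : Finset.Icc (3 : ℕ) 7 = ({3, 4, 5, 6, 7} : Finset ℕ) := by decide
      rw [e]
      unfold low
      rw [Finset.sum_insert (by decide), Finset.sum_insert (by decide),
        Finset.sum_insert (by decide), Finset.sum_insert (by decide), Finset.sum_singleton]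
      norm_num
    linarith

/-- deep part for `j = 2` -/
lemma deep_two (h : Ctx 2 2 1 6 a K d) :
    ∑ k ∈ Pd 2 2 1 6 a K, chg 2 2 1 6 (1 / (a k : ℝ)) k ≤ (3 / 16) * Real.log 3 := by
  have hs := h.deep_sum_aux
  have hcoef : (9 : ℝ) / (8 * (((2 : ℕ) : ℝ) * (((2 : ℕ) : ℝ) + 1))) = 3 / 16 := by norm_num
  rw [hcoef] at hs
  refine le_trans hs ?_
  apply mul_le_mul_of_nonneg_left _ (by norm_num)
  rcases Finset.eq_empty_or_nonempty (Pd 2 2 1 6 a K) with hemp | hne
  · rw [hemp, Finset.sum_empty]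
    exact Real.log_nonneg (by norm_num)
  have hPne : (P 2 2 1 6 a K).Nonempty := by
    obtain ⟨x, hx⟩ := hne
    exact ⟨x, (Finset.mem_filter.mp hx).1⟩
  set e := (P 2 2 1 6 a K).min' hPne with he
  set r := (Pd 2 2 1 6 a K).max' hne with hr
  have heP : e ∈ P 2 2 1 6 a K := Finset.min'_mem _ _
  have hrP : r ∈ Pd 2 2 1 6 a K := Finset.max'_mem _ _
  obtain ⟨hrK, hrlt, hru, hra⟩ := h.mem_Pd hrP
  obtain ⟨p, hp1, hp2⟩ : ∃ p : ℕ, (∀ k ∈ Pd 2 2 1 6 a K, p < k) ∧ r + 1 ≤ 3 * (p + 1) := by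
    by_cases het : e ≤ 10
    · have hePt : e ∈ Pt 2 2 1 6 a K := Finset.mem_filter.mpr ⟨heP, by omega⟩
      obtain ⟨heK, heu, hea⟩ := h.mem_Pt hePt
      have h2 := h.h2r heK hrK
      have hKe := h.hK e heK
      refine ⟨10, ?_, ?_⟩
      · intro k hk
        have := (h.mem_Pd hk).2.1
        omega
      · by_contra hcon
        push Not at hcon
        have hr33 : (33 : ℝ) ≤ r := by
          have : 33 ≤ r := by omega
          exact_mod_cast this
        have he10 : (e : ℝ) ≤ 10 := by exact_mod_cast het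
        have he5 : (5 : ℝ) ≤ e := by
          have : 5 ≤ e := by omega
          exact_mod_cast this
        push_cast at hea hra
        have h8 : ((e : ℝ) + 1) * a e ≤ (e + 1) * (3 * (e - 2)) := by
          apply mul_le_mul_of_nonneg_left (by linarith) (by linarith)
        have h9 : (3 * (e : ℝ) - 5) * r < 9 * e * e - 9 * e - 34 := by nlinarith
        have h10 : (3 * (e : ℝ) - 5) * 33 ≤ (3 * (e : ℝ) - 5) * r := by
          apply mul_le_mul_of_nonneg_left hr33 (by linarith)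
        nlinarith
    · have hePd : e ∈ Pd 2 2 1 6 a K := Finset.mem_filter.mpr ⟨heP, by omega⟩
      obtain ⟨heK, _, heu, hea⟩ := h.mem_Pd hePd
      have h2 := h.h2r heK hrK
      refine ⟨e - 1, ?_, ?_⟩
      · intro k hk
        have : e ≤ k := Finset.min'_le _ _ (Finset.mem_filter.mp hk).1
        omega
      · by_contra hcon
        push Not at hcon
        have hr3 : 3 * (e : ℝ) ≤ r := by
          have : 3 * e ≤ r := by omega
          exact_mod_cast this
        have he11 : (11 : ℝ) ≤ e := by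
          have : 11 ≤ e := by omega
          exact_mod_cast this
        push_cast at hea hra
        have h8 : ((e : ℝ) + 1) * (9 * a e) ≤ (e + 1) * (24 * (e - 2)) := by
          apply mul_le_mul_of_nonneg_left (by linarith) (by linarith)
        have h9 : (3 * (e : ℝ) - 5) * r < 8 * e * e - 8 * e - 32 := by nlinarith
        have h10 : (3 * (e : ℝ) - 5) * (3 * e) ≤ (3 * (e : ℝ) - 5) * r := by
          apply mul_le_mul_of_nonneg_left hr3 (by linarith)
        nlinarith
  have hs1 : ((((2 : ℕ) : ℝ) + 1) * ((1 : ℕ) : ℝ) - ((2 : ℕ) : ℝ)) = 1 := by norm_num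
  rw [hs1]
  have key := logsum' (Pd 2 2 1 6 a K) 1 p r (by positivity) (le_of_lt (hp1 r hrP)) (by
      intro k hk
      exact ⟨hp1 k hk, Finset.le_max' _ _ hk⟩)
  refine le_trans key (Real.log_le_log (by positivity) ?_)
  rw [div_le_iff₀ (by positivity)]
  exact_mod_cast hp2

theorem good_two_large (h : Ctx 2 2 1 6 a K d) (hd6 : 6 ≤ d) :
    ∑ k ∈ K, chg 2 2 1 6 (1 / (a k : ℝ)) k ≤ (d : ℝ) / ((2 : ℕ) * ((2 : ℕ) + d)) := by
  have h1 := h.top_T2
  have h2 := t2f_sound 2 2 1 2 (by norm_num) (by norm_num) 6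
  have h3 := deep_two h
  have h4 := log_three
  have hd6r : (6 : ℝ) ≤ d := by exact_mod_cast hd6
  have h5 : t2f 2 1 2 6 ≤ 925000000 := by decide
  have h6 : (t2f 2 1 2 6 : ℝ) / PN ≤ 925 / 1000 := by
    have h7 : (t2f 2 1 2 6 : ℝ) ≤ 925000000 := by exact_mod_cast h5
    unfold PN
    push_cast
    rw [div_le_iff₀ (by norm_num)]
    linarith
  have hrhs : (3 : ℝ) / 8 ≤ (d : ℝ) / ((2 : ℕ) * ((2 : ℕ) + d)) := by
    push_cast
    rw [div_le_div_iff₀ (by norm_num) (by positivity)]
    linarith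
  refine le_trans ?_ hrhs
  rw [sum_chg_eq]
  have h8 : ((2 : ℕ) : ℝ) * (((2 : ℕ) : ℝ) + 1) = 6 := by norm_num
  rw [h8] at h2
  have e1 : 2 + 2 * 1 = 2 + 2 := by norm_num
  rw [e1] at h1
  linarith

/-- the cases `j = 2, 3, 4` -/
theorem good_two (h : Ctx 2 2 1 6 a K d) :
    ∑ k ∈ K, chg 2 2 1 6 (1 / (a k : ℝ)) k ≤ (d : ℝ) / ((2 : ℕ) * ((2 : ℕ) + d)) := by
  by_cases hd6 : 6 ≤ d
  · exact good_two_large h hd6
  · have hd := h.hd
    apply h.good_of_ex
    have hd5 : d ≤ 5 := by omega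
    clear h
    interval_cases d <;> decide +kernel

theorem good_three (h : Ctx 3 4 2 4 a K d) :
    ∑ k ∈ K, chg 3 4 2 4 (1 / (a k : ℝ)) k ≤ (d : ℝ) / ((4 : ℕ) * ((4 : ℕ) + d)) := by
  by_cases hd6 : 6 ≤ d
  · exact h.good_of_level (by norm_num) (by norm_num) (by norm_num) 21 6 hd6
      (Or.inr (by norm_num)) (by decide +kernel)
  · have hd := h.hd
    apply h.good_of_ex
    have hd5 : d ≤ 5 := by omega
    clear h
    interval_cases d <;> decide +kernel

theorem good_four (h : Ctx 4 6 2 10 a K d) :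
    ∑ k ∈ K, chg 4 6 2 10 (1 / (a k : ℝ)) k ≤ (d : ℝ) / ((6 : ℕ) * ((6 : ℕ) + d)) := by
  by_cases hd6 : 16 ≤ d
  · exact h.good_of_level (by norm_num) (by norm_num) (by norm_num) 25 16 hd6
      (Or.inr (by norm_num)) (by decide +kernel)
  · have hd := h.hd
    apply h.good_of_ex
    have hd5 : d ≤ 15 := by omega
    clear h
    interval_cases d <;> decide +kernel

end Pool.Agent.LOS
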