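import Mathlib
import Pool.Agent.LOS.Chi
import Pool.Agent.LOS.Num

/-!
Values of the greedy sequence up to index 351 and the numerical certificate.
-/

namespace Pool.Agent.LOS

/-- table of the greedy sequence, indices 0 to 351 -/
def tab : List ℕ :=
  [0, 1, 2, 4, 6, 9, 12, 15, 18, 21, 24, 28, 32, 36, 40, 45, 50, 55, 60, 65, 70, 75, 80, 85, 90,
   96, 102, 108, 114, 120, 126, 133, 140, 147, 154, 161, 168, 176, 184, 192, 200, 208, 216, 225,
   234, 243, 252, 261, 270, 280, 290, 300, 310, 320, 330, 341, 352, 363, 374, 385, 396, 407, 418,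
   429, 440, 451, 462, 473, 484, 495, 506, 517, 528, 540, 552, 564, 576, 588, 600, 612, 624, 637,
   650, 663, 676, 689, 702, 715, 728, 742, 756, 770, 784, 798, 812, 826, 840, 855, 870, 885, 900,
   915, 930, 945, 960, 975, 990, 1005, 1020, 1035, 1050, 1065, 1080, 1095, 1110, 1125, 1140,
   1155, 1170, 1185, 1200, 1216, 1232, 1248, 1264, 1280, 1296, 1312, 1328, 1344, 1360, 1377,
   1394, 1411, 1428, 1445, 1462, 1479, 1496, 1513, 1530, 1548, 1566, 1584, 1602, 1620, 1638,
   1656, 1674, 1692, 1710, 1729, 1748, 1767, 1786, 1805, 1824, 1843, 1862, 1881, 1900, 1920,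
   1940, 1960, 1980, 2000, 2020, 2040, 2060, 2080, 2100, 2121, 2142, 2163, 2184, 2205, 2226,
   2247, 2268, 2289, 2310, 2332, 2354, 2376, 2398, 2420, 2442, 2464, 2486, 2508, 2530, 2553,
   2576, 2599, 2622, 2645, 2668, 2691, 2714, 2737, 2760, 2784, 2808, 2832, 2856, 2880, 2904,
   2928, 2952, 2976, 3000, 3025, 3050, 3075, 3100, 3125, 3150, 3175, 3200, 3225, 3250, 3275,
   3300, 3325, 3350, 3375, 3400, 3425, 3450, 3475, 3500, 3525, 3550, 3575, 3600, 3625, 3650,
   3675, 3700, 3725, 3750, 3775, 3800, 3825, 3850, 3875, 3900, 3926, 3952, 3978, 4004, 4030,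
   4056, 4082, 4108, 4134, 4160, 4186, 4212, 4239, 4266, 4293, 4320, 4347, 4374, 4401, 4428,
   4455, 4482, 4509, 4536, 4564, 4592, 4620, 4648, 4676, 4704, 4732, 4760, 4788, 4816, 4844,
   4872, 4901, 4930, 4959, 4988, 5017, 5046, 5075, 5104, 5133, 5162, 5191, 5220, 5250, 5280,
   5310, 5340, 5370, 5400, 5430, 5460, 5490, 5520, 5550, 5580, 5611, 5642, 5673, 5704, 5735,
   5766, 5797, 5828, 5859, 5890, 5921, 5952, 5983, 6014, 6045, 6076, 6107, 6138, 6169, 6200,
   6231, 6262, 6293, 6324, 6355, 6386, 6417, 6448, 6479, 6510, 6541, 6572, 6603, 6634, 6665,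
   6696, 6727, 6758, 6789, 6820, 6851, 6882, 6913, 6944, 6976]

/-- lookup -/
def tb (k : ℕ) : ℕ := tab.getD k 0

/-- breakpoint from the table -/
def tT (m : ℕ) : ℕ := tb m + (m + 2) * (tb (m + 1) - tb m)

/-- step check of the table -/
def stepOK (k : ℕ) : Bool :=
  let m := tb (k + 1) - tb k - 1
  decide (tb (k + 1) = tb k + (m + 1) ∧ (m = 0 ∨ tT (m - 1) ≤ k) ∧ k + 1 ≤ tT m ∧ m + 1 ≤ k)

lemma steps_ok : ∀ k < 351, 1 ≤ k → stepOK k = true := by
  decide +kernel

/-- the check at index `j` with data from the table -/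
def checkTab (j : ℕ) : Bool :=
  checkJ j (tb j) (tb j - tb (j - 1))
    ((j + 2) * (tb (j + 1) - tb j) - j * (tb j - tb (j - 1)))

lemma checks_ok : ∀ j < 351, 5 ≤ j → checkTab j = true := by
  decide +kernel

end Pool.Agent.LOS
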