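import Mathlib
import Pool.Agent.LOS.Chi
import Pool.Agent.LOS.Small
import Pool.Agent.LOS.Table

/-!
The charge inequality at every index.
-/

namespace Pool.Agent.LOS

open Finset

namespace IsChi

variable {c : ℕ → ℕ}

lemma tab_step (h : IsChi c) (k : ℕ) (hk1 : 1 ≤ k) (hk : k < 351)
    (ih : ∀ i, i ≤ k → c i = tb i) : c (k + 1) = tb (k + 1) := by
  have h1 := steps_ok k hk hk1
  unfold stepOK at h1
  simp only [decide_eq_true_eq] at h1
  obtain ⟨e1, e2, e3, e4⟩ := h1
  obtain ⟨m, hm⟩ : ∃ m, m = tb (k + 1) - tb k - 1 := ⟨_, rfl⟩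
  rw [← hm] at e1 e2 e3 e4
  have hT : T c m = tT m := by
    unfold T dl tT
    rw [ih m (by omega), ih (m + 1) e4]
  have h2 : dl c k = m + 1 := by
    apply h.dl_val m k
    · rcases e2 with e2 | e2
      · left; exact e2
      · rcases Nat.eq_zero_or_pos m with h0 | h0
        · left; exact h0
        · right
          have hT' : T c (m - 1) = tT (m - 1) := by
            unfold T dl tT
            rw [ih (m - 1) (by omega), ih (m - 1 + 1) (by omega)]
          rw [hT']; exact e2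
    · rw [hT]; exact e3
  rw [h.dl_add, h2, ih k le_rfl, e1]

lemma tab_eq (h : IsChi c) : ∀ k, k ≤ 351 → c k = tb k := by
  intro k
  induction k using Nat.strong_induction_on with
  | _ k ih =>
    intro hk
    rcases Nat.lt_or_ge k 2 with h2 | h2
    · interval_cases k
      · rw [h.zero]; rfl
      · rw [h.one]; rfl
    · obtain ⟨i, rfl⟩ : ∃ i, k = i + 1 := ⟨k - 1, by omega⟩
      exact h.tab_step i (by omega) (by omega) (fun x hx => ih x (by omega) (by omega))

lemma T_pred (h : IsChi c) (j : ℕ) (hj : 1 ≤ j) : T c (j - 1) = c j + j * dl c (j - 1) := by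
  obtain ⟨i, rfl⟩ : ∃ i, j = i + 1 := ⟨j - 1, by omega⟩
  have h1 := h.dl_add i
  simp only [Nat.add_sub_cancel]
  unfold T
  rw [h1]
  ring

lemma T_cur (c : ℕ → ℕ) (j : ℕ) : T c j = c j + (j + 2) * dl c j := rfl

lemma L_cases (h : IsChi c) (j : ℕ) (hj : 1 ≤ j) :
    T c j - T c (j - 1) = 2 * dl c (j - 1) ∨ T c j - T c (j - 1) = j + 2 * dl c (j - 1) + 2 := by
  have h1 := h.T_pred j hj
  have h2 := T_cur c j
  obtain ⟨i, rfl⟩ : ∃ i, j = i + 1 := ⟨j - 1, by omega⟩
  simp only [Nat.add_sub_cancel] at h1 ⊢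
  have h3 := h.dl_succ_le i
  have h4 := h.dl_mono_succ i
  have h5 : dl c (i + 1) = dl c i ∨ dl c (i + 1) = dl c i + 1 := by omega
  rw [h1, h2]
  rcases h5 with h5 | h5
  · left
    rw [h5]
    have : c (i + 1) + (i + 1 + 2) * dl c i =
      2 * dl c i + (c (i + 1) + (i + 1) * dl c i) := by ring
    omega
  · right
    rw [h5]
    have : c (i + 1) + (i + 1 + 2) * (dl c i + 1) =
      ((i + 1) + 2 * dl c i + 2) + (c (i + 1) + (i + 1) * dl c i) := by ring
    omega

/-- for `l ≥ 3` the index times the difference beats the value -/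
lemma lemB (h : IsChi c) : ∀ l, 3 ≤ l → c l + 2 ≤ l * dl c (l - 1) := by
  intro l hl
  induction l, hl using Nat.le_induction with
  | base =>
    have h3 := h.tab_eq 3 (by norm_num)
    have h2 := h.tab_eq 2 (by norm_num)
    have e3 : tb 3 = 4 := by decide
    have e2 : tb 2 = 2 := by decide
    unfold dl
    simp only [Nat.reduceSub, Nat.reduceAdd]
    rw [h3, h2, e3, e2]
  | succ l hl ih =>
    obtain ⟨i, rfl⟩ : ∃ i, l = i + 1 := ⟨l - 1, by omega⟩
    simp only [Nat.add_sub_cancel] at ih ⊢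
    have h1 := h.dl_add (i + 1)
    have h2 := h.dl_mono_succ i
    have h3 : (i + 1) * dl c i ≤ (i + 1) * dl c (i + 1) := Nat.mul_le_mul_left _ h2
    have h4 : (i + 1 + 1) * dl c (i + 1) = (i + 1) * dl c (i + 1) + dl c (i + 1) := by ring
    omega

/-- the index interval of `j` -/
lemma idx (h : IsChi c) (j : ℕ) (hj : 1 ≤ j) :
    (dl c (j - 1) = 1 ∨ T c (dl c (j - 1) - 2) < j) ∧ j ≤ T c (dl c (j - 1) - 1) := by
  obtain ⟨i, rfl⟩ : ∃ i, j = i + 1 := ⟨j - 1, by omega⟩
  exact h.idx_of_dl i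

lemma T_two (h : IsChi c) : T c 2 = 10 := by
  have h3 := h.tab_eq 3 (by norm_num)
  have h2 := h.tab_eq 2 (by norm_num)
  have e3 : tb 3 = 4 := by decide
  have e2 : tb 2 = 2 := by decide
  unfold T dl
  simp only [Nat.reduceAdd]
  rw [h3, h2, e3, e2]

lemma lemA (h : IsChi c) (m : ℕ) (hm : 11 ≤ m) : (m + 2) * dl c m ≤ 2 * c m := by
  obtain ⟨h1, h2⟩ := h.idx m (by omega)
  obtain ⟨l, hl⟩ : ∃ l, dl c (m - 1) = l + 1 := ⟨dl c (m - 1) - 1, by
    have := h.dl_pos (m - 1); omega⟩
  rw [hl] at h1 h2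
  simp only [Nat.add_sub_cancel] at h2
  have hl3 : 3 ≤ l := by
    by_contra hcon
    have : T c l ≤ T c 2 := h.T_strictMono.monotone (by omega)
    have := h.T_two
    omega
  have h1' : T c (l - 1) < m := by
    rcases h1 with h1 | h1
    · omega
    · have : l + 1 - 2 = l - 1 := by omega
      rw [this] at h1; exact h1
  have hval := h.val_of_between l m (Or.inr h1'.le) h2
  unfold hh at hval
  have hTp := h.T_pred l (by omega)
  have hB := h.lemB l hl3
  rcases Nat.lt_or_ge m (T c l) with h3 | h3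
  · have h4 := h.dl_val l m (Or.inr h1'.le) (by omega)
    rw [h4]
    have h5 : 2 * c l + 2 ≤ m := by omega
    have h6 : (c m : ℤ) = (l + 1) * (m - c l) := hval
    have h7 : (2 * (c l : ℤ)) + 2 ≤ m := by exact_mod_cast h5
    have h8 : ((m : ℤ) + 2) * (l + 1) ≤ 2 * c m := by
      rw [h6]; nlinarith
    exact_mod_cast h8
  · have h4 : m = T c l := by omega
    have h5 : dl c m = l + 2 := by
      have := h.dl_val (l + 1) m (Or.inr (by simpa using h3)) (by
        have := h.T_lt l; omega)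
      omega
    rw [h5]
    have h6 : m = c l + (l + 2) * dl c l := by rw [h4]; rfl
    have h7 : l * dl c (l - 1) ≤ l * dl c l :=
      Nat.mul_le_mul_left _ (h.dl_mono (by omega))
    have h8 : c l + 2 ≤ l * dl c l := by omega
    have h6' : (m : ℤ) = c l + (l + 2) * dl c l := by exact_mod_cast h6
    have h8' : (c l : ℤ) + 2 ≤ l * dl c l := by exact_mod_cast h8
    have h9 : (c m : ℤ) = (l + 1) * (m - c l) := hval
    have h10 : (m : ℤ) - c l = (l + 2) * dl c l := by linarith
    have h11 : ((m : ℤ) + 2) * (l + 2) ≤ 2 * c m := by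
      rw [h9, h10, h6']
      nlinarith
    exact_mod_cast h11

lemma dlv (h : IsChi c) (k : ℕ) (hk : k ≤ 350) : dl c k = tb (k + 1) - tb k := by
  unfold dl
  rw [h.tab_eq k (by omega), h.tab_eq (k + 1) (by omega)]

/-- `8 D ≤ 3 i` from index 8 on -/
lemma lemE (h : IsChi c) (l : ℕ) (hl : 7 ≤ l) : 8 * dl c l ≤ 3 * (l + 1) := by
  rcases Nat.lt_or_ge l 25 with h1 | h1
  · rw [h.dlv l (by omega)]
    interval_cases l <;> decide
  · obtain ⟨g1, g2⟩ := h.idx (l + 1) (by omega)
    simp only [Nat.add_sub_cancel] at g1 g2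
    have h5 : 6 ≤ dl c l := by
      have : dl c 25 ≤ dl c l := h.dl_mono h1
      have h6 : dl c 25 = 6 := by rw [h.dlv 25 (by norm_num)]; decide
      omega
    obtain ⟨m, hm⟩ : ∃ m, dl c l = m + 1 := ⟨dl c l - 1, by omega⟩
    rw [hm] at g1 g2 ⊢
    have g1' : T c (m - 1) < l + 1 := by
      rcases g1 with g1 | g1
      · omega
      · have : m + 1 - 2 = m - 1 := by omega
        rw [this] at g1; exact g1
    have hTp := h.T_pred m (by omega)
    have hc := h.self_le m
    have h7 : 2 ≤ dl c (m - 1) := by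
      have : dl c 2 ≤ dl c (m - 1) := h.dl_mono (by omega)
      have h6 : dl c 2 = 2 := by rw [h.dlv 2 (by norm_num)]; decide
      omega
    have h8 : m * 2 ≤ m * dl c (m - 1) := Nat.mul_le_mul_left _ h7
    omega

lemma T_six (h : IsChi c) : T c 6 = 36 := by
  have h3 := h.tab_eq 7 (by norm_num)
  have h2 := h.tab_eq 6 (by norm_num)
  have e3 : tb 7 = 15 := by decide
  have e2 : tb 6 = 12 := by decide
  unfold T dl
  simp only [Nat.reduceAdd]
  rw [h3, h2, e3, e2]

lemma lemC (h : IsChi c) (m : ℕ) (hm : 31 ≤ m) : 4 * m ≤ 3 * (dl c (m - 1)) ^ 2 := by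
  obtain ⟨_, h2⟩ := h.idx m (by omega)
  have h7 : 7 ≤ dl c (m - 1) := by
    have : dl c 30 ≤ dl c (m - 1) := h.dl_mono (by omega)
    have h6 : dl c 30 = 7 := by rw [h.dlv 30 (by norm_num)]; decide
    omega
  obtain ⟨l, hl⟩ : ∃ l, dl c (m - 1) = l + 1 := ⟨dl c (m - 1) - 1, by omega⟩
  rw [hl] at h2 h7 ⊢
  simp only [Nat.add_sub_cancel] at h2
  rcases Nat.lt_or_ge l 7 with h3 | h3
  · have : l = 6 := by omega
    subst this
    rw [h.T_six] at h2
    omega
  · have hE := h.lemE l h3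
    have h4 : c l ≤ l * dl c l := by
      have h5 := h.lemB l (by omega)
      have h6 : l * dl c (l - 1) ≤ l * dl c l :=
        Nat.mul_le_mul_left _ (h.dl_mono (by omega))
      omega
    have h5 : T c l ≤ (2 * l + 2) * dl c l := by
      rw [T_cur]
      have : (2 * l + 2) * dl c l = l * dl c l + (l + 2) * dl c l := by ring
      omega
    have h6 : (l + 1) * (8 * dl c l) ≤ (l + 1) * (3 * (l + 1)) := Nat.mul_le_mul_left _ hE
    nlinarith

end IsChi

lemma log_seven : Real.log 7 ≤ 2 := by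
  rw [Real.log_le_iff_le_exp (by norm_num)]
  have h2 : Real.exp 2 = (Real.exp 1) ^ 2 := by
    rw [← Real.exp_nat_mul]; norm_num
  rw [h2]
  have h3 := Real.exp_one_gt_d9
  nlinarith

/-- the logarithmic inequality for large indices -/
lemma hlog_aux (j m s : ℝ) (hm : 31 ≤ m) (hs : 7 ≤ s) (hms : 4 * m ≤ 3 * s ^ 2)
    (hj : 3 / 2 * m * s ≤ j + 1) :
    9 / 8 * (m + 1) * Real.log (8 * (j + 1) / 9) ≤ 37 / 50 * (j + 1) := by
  have hX : 0 < 3 / 2 * m * s := by positivity
  have hx : 0 < j + 1 := by linarith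
  -- log (8(j+1)/9) = log ((j+1)/X) + log (8X/9)
  have h1 : Real.log (8 * (j + 1) / 9) =
      Real.log ((j + 1) / (3 / 2 * m * s)) + Real.log (4 / 3 * m * s) := by
    rw [← Real.log_mul (by positivity) (by positivity)]
    congr 1
    field_simp
    ring
  have h2 : Real.log ((j + 1) / (3 / 2 * m * s)) ≤ (j + 1) / (3 / 2 * m * s) - 1 :=
    Real.log_le_sub_one_of_pos (by positivity)
  have h3 : Real.log (4 / 3 * m * s) ≤ 3 * Real.log s := by
    have h4 : 4 / 3 * m * s ≤ s ^ 3 := by nlinarith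
    have h5 : Real.log (4 / 3 * m * s) ≤ Real.log (s ^ 3) :=
      Real.log_le_log (by positivity) h4
    rw [Real.log_pow] at h5
    push_cast at h5
    exact h5
  have h6 : Real.log s ≤ 1 + s / 7 := by
    have h7 : Real.log (s / 7) ≤ s / 7 - 1 := Real.log_le_sub_one_of_pos (by positivity)
    rw [Real.log_div (by linarith) (by norm_num)] at h7
    have := log_seven
    linarith
  have h8 : Real.log (8 * (j + 1) / 9) ≤ (j + 1) / (3 / 2 * m * s) + 2 + 3 * s / 7 := by
    rw [h1]; linarith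
  have h9 : 9 / 8 * (m + 1) * Real.log (8 * (j + 1) / 9) ≤
      9 / 8 * (m + 1) * ((j + 1) / (3 / 2 * m * s) + 2 + 3 * s / 7) := by
    apply mul_le_mul_of_nonneg_left h8 (by positivity)
  refine le_trans h9 ?_
  have h10 : (m + 1) * ((j + 1) / (3 / 2 * m * s)) ≤ (64 / 651) * (j + 1) := by
    have h11 : (m + 1) * ((j + 1) / (3 / 2 * m * s)) = (m + 1) * (j + 1) / (3 / 2 * m * s) := by
      ring
    rw [h11, div_le_iff₀ hX]
    have h12 : (m + 1) ≤ 64 / 651 * (3 / 2 * m * s) := by nlinarith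
    nlinarith [mul_le_mul_of_nonneg_right h12 hx.le]
  have h13 : (m + 1) * (2 + 3 * s / 7) ≤ 32 / 31 * m * (2 + 3 * s / 7) := by
    apply mul_le_mul_of_nonneg_right _ (by positivity)
    linarith
  have h14 : 9 / 8 * (32 / 31 * m * (2 + 3 * s / 7)) ≤ 3 / 5 * (3 / 2 * m * s) := by
    nlinarith [mul_nonneg (by linarith : (0:ℝ) ≤ m) (by linarith : (0:ℝ) ≤ s - 7)]
  nlinarith

open IsChi in
/-- the charge inequality at index `j` -/
theorem perj {c : ℕ → ℕ} (hc : IsChi c) (j : ℕ) (a : ℕ → ℕ) (K : Finset ℕ) (d : ℕ)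
    (h : Ctx j (c j) (dl c (j - 1)) (T c j - T c (j - 1)) a K d) :
    ∑ k ∈ K, chg j (c j) (dl c (j - 1)) (T c j - T c (j - 1)) (1 / (a k : ℝ)) k ≤
      (d : ℝ) / (c j * (c j + d)) := by
  have hj := h.hj
  rcases Nat.lt_or_ge j 351 with h351 | h351
  · -- table range
    have e1 : c j = tb j := hc.tab_eq j (by omega)
    have e2 : dl c (j - 1) = tb j - tb (j - 1) := by
      rw [hc.dlv (j - 1) (by omega)]
      have : j - 1 + 1 = j := by omega
      rw [this]
    have e3 : dl c j = tb (j + 1) - tb j := hc.dlv j (by omega)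
    have e4 : T c j - T c (j - 1) =
        (j + 2) * (tb (j + 1) - tb j) - j * (tb j - tb (j - 1)) := by
      rw [hc.T_pred j hj, T_cur, e2, e3]
      omega
    rw [e1, e2, e4] at h ⊢
    rcases Nat.lt_or_ge j 5 with h5 | h5
    · interval_cases j
      · have f1 : tb 1 = 1 := by decide
        have f2 : tb 1 - tb (1 - 1) = 1 := by decide
        have f3 : (1 + 2) * (tb (1 + 1) - tb 1) - 1 * (tb 1 - tb (1 - 1)) = 2 := by decide
        rw [f3, f2, f1] at h ⊢
        exact good_one h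
      · have f1 : tb 2 = 2 := by decide
        have f2 : tb 2 - tb (2 - 1) = 1 := by decide
        have f3 : (2 + 2) * (tb (2 + 1) - tb 2) - 2 * (tb 2 - tb (2 - 1)) = 6 := by decide
        rw [f3, f2, f1] at h ⊢
        exact good_two h
      · have f1 : tb 3 = 4 := by decide
        have f2 : tb 3 - tb (3 - 1) = 2 := by decide
        have f3 : (3 + 2) * (tb (3 + 1) - tb 3) - 3 * (tb 3 - tb (3 - 1)) = 4 := by decide
        rw [f3, f2, f1] at h ⊢
        exact good_three h
      · have f1 : tb 4 = 6 := by decide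
        have f2 : tb 4 - tb (4 - 1) = 2 := by decide
        have f3 : (4 + 2) * (tb (4 + 1) - tb 4) - 4 * (tb 4 - tb (4 - 1)) = 10 := by decide
        rw [f3, f2, f1] at h ⊢
        exact good_four h
    · exact h.good_of_check (checks_ok j h351 h5)
  · -- large range
    obtain ⟨g1, g2⟩ := hc.idx j hj
    have h32 : 32 ≤ dl c (j - 1) := by
      have : dl c 350 ≤ dl c (j - 1) := hc.dl_mono (by omega)
      have h6 : dl c 350 = 32 := by rw [hc.dlv 350 (by norm_num)]; decide +kernel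
      omega
    obtain ⟨m, hm⟩ : ∃ m, dl c (j - 1) = m + 1 := ⟨dl c (j - 1) - 1, by omega⟩
    have hL := hc.L_cases j hj
    rw [hm] at g1 g2 h32 hL h ⊢
    simp only [Nat.add_sub_cancel] at g2
    have hm31 : 31 ≤ m := by omega
    have g1' : T c (m - 1) < j := by
      rcases g1 with g1 | g1
      · omega
      · have : m + 1 - 2 = m - 1 := by omega
        rw [this] at g1; exact g1
    have hA := hc.lemA m (by omega)
    have hC := hc.lemC m hm31
    have hTp := hc.T_pred m (by omega)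
    have hval := hc.val_of_between m j (Or.inr g1'.le) g2
    unfold hh at hval
    have hs7 : 7 ≤ dl c (m - 1) := by
      have : dl c 30 ≤ dl c (m - 1) := hc.dl_mono (by omega)
      have h6 : dl c 30 = 7 := by rw [hc.dlv 30 (by norm_num)]; decide
      omega
    obtain ⟨s, hs⟩ : ∃ s, dl c (m - 1) = s := ⟨_, rfl⟩
    rw [hs] at hC hTp hs7
    have hTm : T c m = c m + (m + 2) * dl c m := T_cur c m
    have hj3 : j ≤ 3 * c m := by omega
    have F1 : 3 * c j ≤ 2 * (j * (m + 1)) := by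
      have h8 : (j : ℤ) ≤ 3 * c m := by exact_mod_cast hj3
      have h9 : (c j : ℤ) = (m + 1) * (j - c m) := hval
      have h10 : 3 * (c j : ℤ) ≤ 2 * (j * (m + 1)) := by
        rw [h9]; nlinarith
      exact_mod_cast h10
    have hmono : (m + 2) * s ≤ (m + 2) * dl c m := by
      rw [← hs]
      exact Nat.mul_le_mul_left _ (hc.dl_mono (by omega))
    have hms : m * 7 ≤ m * s := Nat.mul_le_mul_left _ hs7
    have hjms : 3 * (m * s) ≤ 2 * (j + 1) := by
      have : (m + 2) * s = m * s + 2 * s := by ring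
      omega
    have hD10 : 10 * (m + 1) ≤ j + 1 := by omega
    apply h.good_large h351 (by omega) F1 hD10 (by omega) (by omega)
    have hmr : (31 : ℝ) ≤ m := by exact_mod_cast hm31
    have hsr : (7 : ℝ) ≤ s := by exact_mod_cast hs7
    have hCr : 4 * (m : ℝ) ≤ 3 * (s : ℝ) ^ 2 := by exact_mod_cast hC
    have hjr : 3 * ((m : ℝ) * s) ≤ 2 * ((j : ℝ) + 1) := by exact_mod_cast hjms
    have := hlog_aux (j : ℝ) m s hmr hsr hCr (by linarith)
    push_cast
    exact this

end Pool.Agent.LOS
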