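import Mathlib
import Pool.Agent.LOS.PerJ

/-!
The comparison of all finite sections.
-/

namespace Pool.Agent.LOS

open Finset IsChi

/-- the charge of `k` on the index `i + 1` -/
noncomputable def ch (c : ℕ → ℕ) (a : ℕ → ℕ) (i k : ℕ) : ℝ :=
  chg (i + 1) (c (i + 1)) (dl c i) (T c (i + 1) - T c i) (1 / (a k : ℝ)) k

lemma ch_nonneg (c a : ℕ → ℕ) (i k : ℕ) : 0 ≤ ch c a i k := chg_nonneg _ _

/-- reciprocal layer values -/
noncomputable def lay (c : ℕ → ℕ) (m k j : ℕ) : ℝ :=
  (if j < m then 9 / 8 else 1) / (((j : ℝ) + 1) * ((k : ℝ) - c j))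

lemma ch_ge (c : ℕ → ℕ) (hc : IsChi c) (a : ℕ → ℕ) (m k i : ℕ) (hi : i < m)
    (h1 : T c (m - 1) < k) (h2 : k ≤ T c m) :
    min (1 / (a k : ℝ)) (lay c m k i) - min (1 / (a k : ℝ)) (lay c m k (i + 1)) ≤
      ch c a i k := by
  have e1 : (c (i + 1) : ℝ) = c i + dl c i := by exact_mod_cast hc.dl_add i
  have hTi : T c i < k := lt_of_le_of_lt (hc.T_strictMono.monotone (by omega)) h1
  have hsum : c (i + 1) + (i + 1) * dl c i + (T c (i + 1) - T c i) = T c (i + 1) := by
    have h3 := hc.T_pred (i + 1) (by omega)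
    simp only [Nat.add_sub_cancel] at h3
    have h4 := hc.T_lt i
    omega
  have hcap : cap (i + 1) (c (i + 1)) (dl c i) k = lay c m k i := by
    unfold cap lay
    rw [if_pos hi]
    push_cast
    rw [e1]
    congr 1
    ring
  have hlow : low (i + 1) (c (i + 1)) (dl c i) (T c (i + 1) - T c i) k = lay c m k (i + 1) := by
    unfold low lay
    rw [hsum]
    by_cases h5 : i + 1 < m
    · have h6 : ¬ k ≤ T c (i + 1) := by
        have : T c (i + 1) ≤ T c (m - 1) := hc.T_strictMono.monotone (by omega)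
        omega
      rw [if_neg h6, if_pos h5]
    · have h6 : i + 1 = m := by omega
      rw [if_neg h5, h6, if_pos h2]
  unfold ch chg
  rw [hcap, hlow]
  rcases le_total (1 / (a k : ℝ)) (lay c m k (i + 1)) with h5 | h5
  · rw [min_eq_left h5]
    have := min_le_left (1 / (a k : ℝ)) (lay c m k i)
    exact le_trans (by linarith) (le_max_left _ _)
  · rw [min_eq_right h5]
    exact le_max_right _ _

lemma gain_le (c : ℕ → ℕ) (hc : IsChi c) (a : ℕ → ℕ) (N k : ℕ) (hk1 : 1 ≤ k) (hkN : k ≤ N)
    (hself : k ≤ a k) (hlt : a k < c k) :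
    1 / (a k : ℝ) - 1 / (c k : ℝ) ≤
      ∑ i ∈ Finset.range N, (if T c i < k then ch c a i k else 0) := by
  obtain ⟨m, h1, h2⟩ := hc.exists_idx k
  have hm0 : m ≠ 0 := by
    intro hm
    have := hc.val_of_between m k (Or.inl hm) h2
    rw [hm] at this
    unfold hh at this
    rw [hc.zero] at this
    push_cast at this
    have h3 : (c k : ℤ) = k := by linarith
    have h4 : c k = k := by exact_mod_cast h3
    omega
  have h1' : T c (m - 1) < k := by
    rcases h1 with h1 | h1
    · exact absurd h1 hm0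
    · exact h1
  have hmN : m ≤ N := by
    have : m - 1 ≤ T c (m - 1) := hc.T_strictMono.le_apply
    omega
  have hval := hc.val_of_between m k (Or.inr h1'.le) h2
  have hvalr : (c k : ℝ) = ((m : ℝ) + 1) * ((k : ℝ) - c m) := by
    have : ((c k : ℤ) : ℝ) = ((hh c m k : ℤ) : ℝ) := by rw [hval]
    unfold hh at this
    push_cast at this
    exact this
  have hk0 : (0 : ℝ) < k := by exact_mod_cast (by omega : 0 < k)
  have ha0 : (0 : ℝ) < a k := by exact_mod_cast (by omega : 0 < a k)
  have htel : ∑ i ∈ Finset.range m, (min (1 / (a k : ℝ)) (lay c m k i) -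
      min (1 / (a k : ℝ)) (lay c m k (i + 1))) = 1 / (a k : ℝ) - 1 / (c k : ℝ) := by
    rw [Finset.sum_range_sub']
    have e0 : min (1 / (a k : ℝ)) (lay c m k 0) = 1 / (a k : ℝ) := by
      apply min_eq_left
      unfold lay
      rw [if_pos (by omega), hc.zero]
      push_cast
      rw [div_le_div_iff₀ ha0 (by linarith)]
      have : (k : ℝ) ≤ a k := by exact_mod_cast hself
      linarith
    have em : min (1 / (a k : ℝ)) (lay c m k m) = 1 / (c k : ℝ) := by
      have : lay c m k m = 1 / (c k : ℝ) := by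
        unfold lay
        rw [if_neg (by omega), hvalr]
      rw [this]
      apply min_eq_right
      apply one_div_le_one_div_of_le ha0
      exact_mod_cast hlt.le
    rw [e0, em]
  rw [← htel]
  calc ∑ i ∈ Finset.range m, (min (1 / (a k : ℝ)) (lay c m k i) -
      min (1 / (a k : ℝ)) (lay c m k (i + 1)))
      ≤ ∑ i ∈ Finset.range m, (if T c i < k then ch c a i k else 0) := by
        apply Finset.sum_le_sum
        intro i hi
        rw [Finset.mem_range] at hi
        have hTi : T c i < k := lt_of_le_of_lt (hc.T_strictMono.monotone (by omega)) h1'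
        rw [if_pos hTi]
        exact ch_ge c hc a m k i hi h1' h2
    _ ≤ ∑ i ∈ Finset.range N, (if T c i < k then ch c a i k else 0) := by
        apply Finset.sum_le_sum_of_subset_of_nonneg
        · intro i hi
          rw [Finset.mem_range] at hi ⊢
          omega
        · intro i _ _
          split_ifs
          · exact ch_nonneg c a i k
          · exact le_rfl

/-- total charge on index `i + 1` -/
lemma load_le (c : ℕ → ℕ) (hc : IsChi c) (a : ℕ → ℕ)
    (ha : ∀ i j : ℕ, 1 ≤ i → 1 ≤ j → (j + 1) * i ≤ a i + (j + 1) * a j)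
    (hself : ∀ k, 1 ≤ k → k ≤ a k) (i : ℕ) (K : Finset ℕ)
    (hK : ∀ k ∈ K, T c i < k) :
    ∑ k ∈ K, ch c a i k ≤
      (if c (i + 1) < a (i + 1) then 1 / (c (i + 1) : ℝ) - 1 / (a (i + 1) : ℝ) else 0) := by
  have hTp := hc.T_pred (i + 1) (by omega)
  simp only [Nat.add_sub_cancel] at hTp
  have hci : i + 1 ≤ c (i + 1) := hc.self_le (i + 1)
  split_ifs with hlt
  · obtain ⟨d, hd⟩ : ∃ d, a (i + 1) = c (i + 1) + d := ⟨a (i + 1) - c (i + 1), by omega⟩
    have hctx : Ctx (i + 1) (c (i + 1)) (dl c (i + 1 - 1)) (T c (i + 1) - T c (i + 1 - 1)) a K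
        d := by
      simp only [Nat.add_sub_cancel]
      refine ⟨by omega, hc.dl_pos i, by omega, hci, ?_, ?_, ?_, ?_⟩
      · intro k hk
        rw [← hTp]
        exact hK k hk
      · intro k hk
        exact hself k (by have := hK k hk; omega)
      · intro k hk
        have := ha k (i + 1) (by have := hK k hk; omega) (by omega)
        rw [hd] at this
        exact this
      · intro e he k hk
        exact ha k e (by have := hK k hk; omega) (by have := hK e he; omega)
    have h1 := perj hc (i + 1) a K d hctx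
    simp only [Nat.add_sub_cancel] at h1
    refine le_trans h1 (le_of_eq ?_)
    rw [hd]
    have hc0 : (0 : ℝ) < c (i + 1) := by exact_mod_cast (by omega : 0 < c (i + 1))
    have hd0 : (0 : ℝ) ≤ d := Nat.cast_nonneg d
    push_cast
    have : (c (i + 1) : ℝ) + d ≠ 0 := by linarith
    field_simp
    ring
  · apply Finset.sum_nonpos
    intro k hk
    have hkT := hK k hk
    have hk1 : 1 ≤ k := by omega
    unfold ch chg
    apply max_le le_rfl
    have h1 := ha k (i + 1) hk1 (by omega)
    have h2 : (i + 1 + 1) * k ≤ a k + (i + 1 + 1) * c (i + 1) :=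
      le_trans h1 (Nat.add_le_add_left (Nat.mul_le_mul_left _ (by omega)) _)
    have h2r : (((i + 1 + 1) * k : ℕ) : ℝ) ≤ ((a k + (i + 1 + 1) * c (i + 1) : ℕ) : ℝ) := by
      exact_mod_cast h2
    push_cast at h2r
    have hkc : c (i + 1) < k := by omega
    have hkcr : (c (i + 1) : ℝ) < k := by exact_mod_cast hkc
    have hpos : 0 < (((i : ℝ) + 1) + 1) * ((k : ℝ) - c (i + 1)) := by
      apply mul_pos
      · positivity
      · linarith
    have h3 : 1 / (a k : ℝ) ≤ 1 / ((((i : ℝ) + 1) + 1) * ((k : ℝ) - c (i + 1))) := by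
      apply one_div_le_one_div_of_le hpos
      linarith
    have h4 : 1 / ((((i : ℝ) + 1) + 1) * ((k : ℝ) - c (i + 1))) ≤
        low (i + 1) (c (i + 1)) (dl c i) (T c (i + 1) - T c i) k := by
      unfold low
      push_cast
      apply div_le_div_of_nonneg_right _ hpos.le
      split_ifs <;> norm_num
    have h5 := min_le_left (1 / (a k : ℝ)) (cap (i + 1) (c (i + 1)) (dl c i) k)
    linarith

theorem core (c : ℕ → ℕ) (hc : IsChi c) (a : ℕ → ℕ)
    (ha : ∀ i j : ℕ, 1 ≤ i → 1 ≤ j → (j + 1) * i ≤ a i + (j + 1) * a j) (N : ℕ) :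
    ∑ k ∈ Finset.range N, 1 / (a (k + 1) : ℝ) ≤ ∑ k ∈ Finset.range N, 1 / (c (k + 1) : ℝ) := by
  have hself : ∀ k, 1 ≤ k → k ≤ a k := by
    intro k hk
    have h1 := ha k k hk hk
    by_contra hcon
    push Not at hcon
    have h2 : a k ≤ k - 1 := by omega
    obtain ⟨n, rfl⟩ : ∃ n, k = n + 1 := ⟨k - 1, by omega⟩
    simp only [Nat.add_sub_cancel] at h2
    nlinarith
  -- gains and losses
  have hgl : ∀ k ∈ Finset.range N, 1 / (a (k + 1) : ℝ) - 1 / (c (k + 1) : ℝ) =
      (if a (k + 1) < c (k + 1) then 1 / (a (k + 1) : ℝ) - 1 / (c (k + 1) : ℝ) else 0) -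
      (if c (k + 1) < a (k + 1) then 1 / (c (k + 1) : ℝ) - 1 / (a (k + 1) : ℝ) else 0) := by
    intro k _
    rcases lt_trichotomy (a (k + 1)) (c (k + 1)) with h | h | h
    · rw [if_pos h, if_neg (by omega)]; ring
    · rw [if_neg (by omega), if_neg (by omega), h]; ring
    · rw [if_neg (by omega), if_pos h]; ring
  have hgain : ∑ k ∈ Finset.range N,
      (if a (k + 1) < c (k + 1) then 1 / (a (k + 1) : ℝ) - 1 / (c (k + 1) : ℝ) else 0) ≤
      ∑ k ∈ Finset.range N, ∑ i ∈ Finset.range N,
        (if a (k + 1) < c (k + 1) ∧ T c i < k + 1 then ch c a i (k + 1) else 0) := by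
    apply Finset.sum_le_sum
    intro k hk
    rw [Finset.mem_range] at hk
    by_cases h : a (k + 1) < c (k + 1)
    · rw [if_pos h]
      refine le_trans (gain_le c hc a N (k + 1) (by omega) (by omega) (hself _ (by omega)) h)
        (le_of_eq ?_)
      apply Finset.sum_congr rfl
      intro i _
      by_cases h2 : T c i < k + 1
      · rw [if_pos h2, if_pos ⟨h, h2⟩]
      · rw [if_neg h2, if_neg (fun hh => h2 hh.2)]
    · rw [if_neg h]
      apply Finset.sum_nonneg
      intro i _
      split_ifs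
      · exact ch_nonneg _ _ _ _
      · exact le_rfl
  rw [Finset.sum_comm] at hgain
  have hload : ∀ i ∈ Finset.range N, ∑ k ∈ Finset.range N,
        (if a (k + 1) < c (k + 1) ∧ T c i < k + 1 then ch c a i (k + 1) else 0) ≤
      (if c (i + 1) < a (i + 1) then 1 / (c (i + 1) : ℝ) - 1 / (a (i + 1) : ℝ) else 0) := by
    intro i _
    rw [← Finset.sum_filter]
    have e : ∑ k ∈ (Finset.range N).filter (fun k => a (k + 1) < c (k + 1) ∧ T c i < k + 1),
        ch c a i (k + 1) =
        ∑ k ∈ ((Finset.range N).filter (fun k => a (k + 1) < c (k + 1) ∧ T c i < k + 1)).map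
          ⟨fun k => k + 1, fun x y h => by simpa using h⟩, ch c a i k := by
      rw [Finset.sum_map]
      rfl
    rw [e]
    apply load_le c hc a ha hself i
    intro k hk
    rw [Finset.mem_map] at hk
    obtain ⟨k', hk', rfl⟩ := hk
    exact (Finset.mem_filter.mp hk').2.2
  have htot := Finset.sum_le_sum hload
  have hfin : ∑ k ∈ Finset.range N, (1 / (a (k + 1) : ℝ) - 1 / (c (k + 1) : ℝ)) ≤ 0 := by
    rw [Finset.sum_congr rfl hgl, Finset.sum_sub_distrib]
    linarith
  rw [Finset.sum_sub_distrib] at hfin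
  linarith

end Pool.Agent.LOS
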